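import Pool.Agent.Helper70.GB.LevelB
import Pool.Agent.Helper11.GB.A7

/-!
# The level theorem, part C: assembly
-/

open Set MeasureTheory Filter Topology

namespace GB

lemma exists_pos_le_finset {ι : Type*} (F : Finset ι) (g : ι → ℝ) (hg : ∀ i ∈ F, 0 < g i) :
    ∃ δ > 0, ∀ i ∈ F, δ ≤ g i := by
  classical
  induction F using Finset.induction_on with
  | empty => exact ⟨1, one_pos, by simp⟩
  | insert a F ha ih =>
    obtain ⟨δ, h1, h2⟩ := ih (fun i hi => hg i (Finset.mem_insert_of_mem hi))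
    refine ⟨min δ (g a), lt_min h1 (hg a (Finset.mem_insert_self _ _)), ?_⟩
    intro i hi
    rcases Finset.mem_insert.mp hi with rfl | hi
    · exact min_le_right _ _
    · exact (min_le_left _ _).trans (h2 i hi)

lemma dZ_pos {y : ℝ} (h : ∀ u : ℤ, y ≠ u) : 0 < dZ y := by
  rw [dZ, abs_pos, sub_ne_zero]
  exact h _

lemma dZ_Lf_pos {a₁ a₂ : ℝ} (hα : QIndep a₁ a₂) {v : ℤ × ℤ} (hv : v ≠ 0) :
    0 < dZ (Lf a₁ a₂ v) := dZ_pos (fun u h => hv (hα v u h))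

lemma exists_enum : ∃ e : ℕ → ℚ × ℕ, ∀ (p : ℚ × ℕ) (k₁ : ℕ), ∃ k ≥ k₁, e k = p := by
  obtain ⟨g, hg⟩ := exists_surjective_nat (ℚ × ℕ)
  refine ⟨fun k => g (Nat.unpair k).1, ?_⟩
  intro p k₁
  obtain ⟨m, hm⟩ := hg p
  refine ⟨Nat.pair m k₁, Nat.right_le_pair _ _, ?_⟩
  simp [hm]

theorem level_theorem (a₁ a₂ : ℝ) (hα : QIndep a₁ a₂) (S K : ℕ) (hK : 1 ≤ K) (ℓ η γ : ℝ)
    (hℓ : 0 < ℓ) (hη : 0 < η) (hγ : 0 < γ) :
    ∃ (N : ℕ) (V Z : ℕ → Set ℝ), SeedSys a₁ a₂ S N V Z ∧ 1 / (N : ℝ) ≤ γ ∧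
      volume (V 0 ∩ Icc 0 1) ≤ ENNReal.ofReal η ∧ Universal a₁ a₂ K ℓ Z := by
  -- constants
  obtain ⟨b, hb⟩ : ∃ b : ℕ, 16 * K * 4 ^ (K * (2 * S + 1) ^ 2 + K) < b := ⟨_, Nat.lt_succ_self _⟩
  obtain ⟨h1, h2, h3, h4, h5, h6⟩ := const_facts hK hb
  have hb16 : 16 ≤ b := by exact_mod_cast h5
  have hb3 : 3 ≤ b ^ 3 := by
    calc 3 ≤ 16 ^ 3 := by norm_num
      _ ≤ b ^ 3 := Nat.pow_le_pow_left hb16 3
  obtain ⟨ρ₀, hρ₀, hρS⟩ := exists_pos_le_finset ((sq S).filter (· ≠ 0))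
    (fun v => dZ (Lf a₁ a₂ v)) (by
      intro v hv
      exact dZ_Lf_pos hα (Finset.mem_filter.mp hv).2)
  obtain ⟨e, he⟩ := exists_enum
  set c : ℕ → ℝ := fun k => ((e k).1 : ℝ) with hc
  set r : ℕ → ℝ := fun k => ρ₀ / ((e k).2 + 1) with hr
  have henum : ∀ (c' : ℚ) (n k₁ : ℕ), ∃ k ≥ k₁, c k = c' ∧ r k = ρ₀ / (n + 1) := by
    intro c' n k₁
    obtain ⟨k, hk, hek⟩ := he (c', n) k₁
    exact ⟨k, hk, by simp [hc, hek], by simp [hr, hek]⟩
  have hrpos : ∀ i, 0 < r i := by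
    intro i
    simp only [hr]
    positivity
  have hr2 : ∀ i, ∀ v : ℤ × ℤ, v ≠ 0 → InSq S v → r i ≤ dZ (Lf a₁ a₂ v) := by
    intro i v hv0 hv
    have h7 := hρS v (Finset.mem_filter.mpr ⟨mem_sq.mpr hv, hv0⟩)
    refine le_trans ?_ h7
    simp only [hr]
    apply div_le_self hρ₀.le
    have : (0 : ℝ) ≤ (e i).2 := Nat.cast_nonneg _
    linarith
  -- scales
  set lam : ℝ := min ℓ 1 / 4 with hlam
  have hlampos : 0 < lam := by
    have : 0 < min ℓ 1 := lt_min hℓ one_pos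
    positivity
  have hlam1 : lam ≤ 1 / 4 := by
    have : min ℓ 1 ≤ 1 := min_le_right _ _
    rw [hlam]; linarith
  have hlamℓ : lam ≤ ℓ / 4 := by
    have : min ℓ 1 ≤ ℓ := min_le_left _ _
    rw [hlam]; linarith
  set n₂ : ℕ := K * K * (2 * S + 1) ^ 2 with hn₂
  obtain ⟨j₀, hj₀⟩ : ∃ j₀ : ℕ, 1 / (((b ^ 3) ^ j₀ : ℕ) : ℝ) ≤ min γ (lam / 4 ^ n₂) := by
    have hμ : 0 < min γ (lam / 4 ^ n₂) := lt_min hγ (by positivity)
    obtain ⟨n₁, hn₁⟩ := exists_nat_gt (1 / min γ (lam / 4 ^ n₂))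
    refine ⟨n₁, ?_⟩
    have hpow : (n₁ : ℝ) ≤ (((b ^ 3) ^ n₁ : ℕ) : ℝ) := by
      have : n₁ ≤ (b ^ 3) ^ n₁ := by
        calc n₁ ≤ 2 ^ n₁ := Nat.lt_two_pow_self.le
          _ ≤ (b ^ 3) ^ n₁ := Nat.pow_le_pow_left (by omega) _
      exact_mod_cast this
    have hpos : (0 : ℝ) < n₁ := lt_trans (by positivity) hn₁
    rw [div_lt_iff₀ hμ] at hn₁
    rw [div_le_iff₀ (lt_of_lt_of_le hpos hpow)]
    nlinarith
  obtain ⟨J₂, hJ₂, hvol⟩ : ∃ J₂, j₀ < J₂ ∧ volume (Vd (b ^ 3) j₀ J₂ ∩ Icc 0 1) ≤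
      ENNReal.ofReal η := by
    have h7 := Vd_tendsto (b ^ 3) j₀ hb3
    have h8 : ∀ᶠ J in atTop, volume (Vd (b ^ 3) j₀ J ∩ Icc 0 1) < ENNReal.ofReal η :=
      (tendsto_order.mp h7).2 _ (ENNReal.ofReal_pos.mpr hη)
    obtain ⟨J, hJ1, hJ2⟩ := (h8.and (eventually_gt_atTop j₀)).exists
    exact ⟨J, hJ2, hJ1.le⟩
  have hsys := seedSys_of (a₁ := a₁) (a₂ := a₂) (S := S) (b := b) (j₀ := j₀) (J₂ := J₂) (c := c)
    (r := r) (by omega) hJ₂ hrpos hr2 (Vd_tendsto (b ^ 3) j₀ hb3)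
  refine ⟨(b ^ 3) ^ j₀, _, _, hsys, ?_, ?_, ?_⟩
  · exact hj₀.trans (min_le_left _ _)
  · refine le_trans (measure_mono ?_) hvol
    intro x hx
    refine ⟨?_, hx.2⟩
    intro j hj1 hj2
    have h7 := hx.1.1 j hj1 (by simpa using hj2)
    have h8 : 1 / ((b ^ 3 : ℕ) : ℝ) < dZ (((b ^ 3) ^ j : ℕ) * x) := by
      have h9 : 1 < (b : ℝ) * dZ (((b ^ 3) ^ j : ℕ) * x) := lt_of_le_of_lt (tau_ge 0) h7
      have hb0 : (0 : ℝ) < b := by linarith
      rw [div_lt_iff₀ (by positivity)]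
      have h10 : (b : ℝ) * dZ (((b ^ 3) ^ j : ℕ) * x) ≤
          dZ (((b ^ 3) ^ j : ℕ) * x) * ((b ^ 3 : ℕ) : ℝ) := by
        rw [mul_comm]
        apply mul_le_mul_of_nonneg_left _ (dZ_nonneg _)
        push_cast
        nlinarith [sq_nonneg ((b : ℝ) - 1)]
      linarith
    rw [lt_dZ_iff] at h8
    push_cast at h8 ⊢
    exact h8
  · -- universality
    intro k' hk' s q hs hq c₀
    have hspos : ∀ l, 0 < |s l| := fun l => lt_of_lt_of_le (by positivity) (hs l).1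
    -- separate the maps with different slopes
    set F : Finset (Fin k' × Fin k' × (ℤ × ℤ)) :=
      (Finset.univ ×ˢ Finset.univ ×ˢ sq S).filter (fun p => s p.1 ≠ s p.2.1) with hF
    have hFcard : F.card ≤ n₂ := by
      refine (Finset.card_filter_le _ _).trans ?_
      rw [Finset.card_product, Finset.card_product, card_sq, Finset.card_univ, Fintype.card_fin,
        hn₂, mul_assoc]
      gcongr
    obtain ⟨t₁, g1, g2, g3⟩ := avoid_finset 1 one_pos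
      (fun p : Fin k' × Fin k' × (ℤ × ℤ) => s p.1 - s p.2.1)
      (fun p => q p.1 - q p.2.1 - Lf a₁ a₂ p.2.2) lam hlampos F
      (by
        intro p hp
        rw [hF, Finset.mem_filter] at hp
        exact sub_ne_zero.mpr hp.2)
      (by
        intro p _
        rw [one_mul]
        have e1 : |s p.1 - s p.2.1| ≤ 2 := by
          refine (abs_sub _ _).trans ?_
          linarith [(hs p.1).2, (hs p.2.1).2]
        have : |s p.1 - s p.2.1| * lam ≤ 2 * (1 / 4) := by gcongr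
        linarith) (c₀ + lam)
    have hlen : 1 / (((b ^ 3) ^ j₀ : ℕ) : ℝ) ≤ lam / 4 ^ F.card := by
      refine (hj₀.trans (min_le_right _ _)).trans ?_
      apply div_le_div_of_nonneg_left hlampos.le (by positivity)
      exact pow_le_pow_right₀ (by norm_num) hFcard
    -- the separation constant
    obtain ⟨δ, hδ, hδF⟩ := exists_pos_le_finset
      ((Finset.univ ×ˢ Finset.univ ×ˢ sq S : Finset (Fin k' × Fin k' × (ℤ × ℤ))).filter
        (fun p => p.1 ≠ p.2.1))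
      (fun p => if s p.1 = s p.2.1 then dZ (q p.1 - q p.2.1 - Lf a₁ a₂ p.2.2)
        else 1 * |s p.1 - s p.2.1| * lam / (8 * 4 ^ F.card)) (by
        intro p hp
        rw [Finset.mem_filter] at hp
        split_ifs with h
        · apply dZ_pos
          intro u hu
          apply hq p.1 p.2.1 hp.2 h p.2.2 u
          linarith
        · have : 0 < |s p.1 - s p.2.1| := abs_pos.mpr (sub_ne_zero.mpr h)
          positivity)
    have hD : (Finset.univ : Finset (Fin k')).card ≤ K := by simpa using hk'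
    obtain ⟨t₂, g4, g5, g6⟩ := start (a₁ := a₁) (a₂ := a₂) (c := c) (r := r) (q := q) hK hb hs
      Finset.univ hD hJ₂.le t₁
    obtain ⟨x, hx, hxl⟩ := decide_all hK hb hs ρ₀ hρ₀ henum δ hδ _ Finset.univ rfl hD 0 t₂ g6 (by
      intro x hx l _ l' _ hne v hv
      have hx1 : x ∈ Icc t₁ (t₁ + lam / 4 ^ F.card) := ⟨by linarith [hx.1], by linarith [hx.2]⟩
      have h7 := hδF (l, l', v) (Finset.mem_filter.mpr
        ⟨Finset.mem_product.mpr ⟨Finset.mem_univ _, Finset.mem_product.mpr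
          ⟨Finset.mem_univ _, mem_sq.mpr hv⟩⟩, hne⟩)
      simp only at h7
      split_ifs at h7 with h
      · refine h7.trans (le_of_eq ?_)
        congr 1
        rw [h]; ring
      · have h8 := g3 (l, l', v) (by
          rw [hF, Finset.mem_filter]
          exact ⟨Finset.mem_product.mpr ⟨Finset.mem_univ _, Finset.mem_product.mpr
            ⟨Finset.mem_univ _, mem_sq.mpr hv⟩⟩, h⟩) x hx1
        refine (h7.trans h8).trans (le_of_eq ?_)
        congr 1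
        simp only
        ring)
    refine ⟨x, ⟨?_, ?_⟩, ?_⟩
    · linarith [hx.1]
    · have h9 : lam / 4 ^ F.card ≤ lam := div_le_self hlampos.le (one_le_pow₀ (by norm_num))
      linarith [hx.2]
    · intro l
      obtain ⟨k₁, hk₁⟩ := hxl l (Finset.mem_univ _)
      exact ⟨k₁, interior_maximal subset_closure (ZZ_open k₁) hk₁⟩

end GB
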