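import Pool.Agent.Helper91.GB.A5a
import Pool.Agent.Helper70.GB.LevelC
import Pool.Agent.Helper37.GB.PatRegular
import Pool.Agent.Helper7.GB.PatValues

/-!
# MP_02f2ca_gt : module A10b, one good level
-/

open Set MeasureTheory Filter Topology

namespace GB

/-- The centre of a cell. -/
noncomputable def ctr (N : ℕ) (c : ℤ) : ℝ := ((c : ℝ) + 1 / 2) / N

theorem ctr_close {N : ℕ} (hN : 1 ≤ N) {w : ℝ} (hw : 1 / (N : ℝ) ≤ w) (z : ℝ) :
    |z - ctr N ⌊(N : ℝ) * z⌋| ≤ w / 2 := by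
  have hN0 : (0 : ℝ) < N := by exact_mod_cast hN
  have h1 : z - ctr N ⌊(N : ℝ) * z⌋ = ((N : ℝ) * z - ⌊(N : ℝ) * z⌋ - 1 / 2) / N := by
    unfold ctr
    field_simp
    ring
  have h2 : |(N : ℝ) * z - ⌊(N : ℝ) * z⌋ - 1 / 2| ≤ 1 / 2 := by
    rw [abs_le]
    constructor
    · linarith [Int.floor_le ((N : ℝ) * z)]
    · linarith [Int.lt_floor_add_one ((N : ℝ) * z)]
  rw [h1, abs_div, abs_of_pos hN0, div_le_iff₀ hN0]
  have h3 : 1 ≤ w * N := by rwa [div_le_iff₀ hN0] at hw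
  linarith

theorem ctr_add {N : ℕ} (hN : 1 ≤ N) (c : ℤ) : ctr N (c + N) = ctr N c + 1 := by
  have hN0 : (0 : ℝ) < N := by exact_mod_cast hN
  unfold ctr
  push_cast
  field_simp
  ring

/-- The translate by `L(a, r)` lies in the window. -/
def Hit (a₁ a₂ w x : ℝ) (r a : ℤ) : Prop :=
  ∃ k : ℤ, x + Lf a₁ a₂ (a, r) + k ∈ Ioo (5 * w) (7 * w)

theorem Hit_add_one (a₁ a₂ w x : ℝ) (r a : ℤ) : Hit a₁ a₂ w (x + 1) r a ↔ Hit a₁ a₂ w x r a := by
  unfold Hit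
  constructor
  · rintro ⟨k, hk⟩
    refine ⟨k + 1, ?_⟩
    push_cast
    rwa [show x + Lf a₁ a₂ (a, r) + ((k : ℝ) + 1) = x + 1 + Lf a₁ a₂ (a, r) + k by ring]
  · rintro ⟨k, hk⟩
    refine ⟨k - 1, ?_⟩
    push_cast
    rwa [show x + 1 + Lf a₁ a₂ (a, r) + ((k : ℝ) - 1) = x + Lf a₁ a₂ (a, r) + k by ring]

/-- The first hit after `s`. -/
noncomputable def fst (a₁ a₂ w x : ℝ) (r s : ℤ) : ℕ := sInf {a : ℕ | Hit a₁ a₂ w x r (s + a)}

theorem fst_add_one (a₁ a₂ w x : ℝ) (r s : ℤ) : fst a₁ a₂ w (x + 1) r s = fst a₁ a₂ w x r s := by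
  unfold fst
  simp only [Hit_add_one]

/-- All facts about the first hit. -/
theorem fst_spec {a₁ a₂ w : ℝ} {T : ℕ}
    (hT : ∀ x : ℝ, ∃ a : ℕ, a < T ∧ ∃ k : ℤ, x + a * a₁ + k ∈ Ioo (5 * w) (7 * w))
    (x : ℝ) (r s : ℤ) :
    fst a₁ a₂ w x r s < T ∧ Hit a₁ a₂ w x r (s + fst a₁ a₂ w x r s) ∧
      ∀ a : ℕ, Hit a₁ a₂ w x r (s + a) → fst a₁ a₂ w x r s ≤ a := by
  obtain ⟨a, haT, k, hk⟩ := hT (x + Lf a₁ a₂ (s, r))
  have h1 : Hit a₁ a₂ w x r (s + a) := by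
    refine ⟨k, ?_⟩
    have e : x + Lf a₁ a₂ (s + a, r) + k = x + Lf a₁ a₂ (s, r) + a * a₁ + k := by
      simp only [Lf]
      push_cast
      ring
    rwa [e]
  have h2 : ∀ a : ℕ, Hit a₁ a₂ w x r (s + a) → fst a₁ a₂ w x r s ≤ a := fun a ha =>
    Nat.sInf_le ha
  have h3 : Hit a₁ a₂ w x r (s + fst a₁ a₂ w x r s) :=
    Nat.sInf_mem (s := {a : ℕ | Hit a₁ a₂ w x r (s + a)}) ⟨a, h1⟩
  exact ⟨(h2 a h1).trans_lt haT, h3, h2⟩

theorem cob_cases (a₁ : ℝ) (G : Set ℝ) (x : ℝ) (h : cob a₁ G x ≠ 0) :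
    cob a₁ G x = 1 ∨ cob a₁ G x = -1 := by
  unfold cob at h ⊢
  by_cases h1 : x ∈ G <;> by_cases h2 : x + a₁ ∈ G <;> simp [h1, h2] at h ⊢

theorem exists_good_level (a₁ a₂ : ℝ) (hα : QIndep a₁ a₂) (thr2 : ℝ → ℕ) (κ : ℕ → ℕ → ℕ)
    (e : ℕ → ℝ) (he : ∀ n, 0 < e n) (μ₀ : ℝ) (hμ₀ : 0 < μ₀) (i : ℕ) (ε : ℝ) (hε : 0 < ε)
    (θ : ℕ) : ∃ X : Lev, Good a₁ a₂ thr2 κ e μ₀ i ε θ X := by
  obtain ⟨g, w, hg, hw, hwε, hgw, hgap⟩ := exists_gap a₁ hα.irrational.1 ε hε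
  obtain ⟨T, hT⟩ := exists_cover a₁ hα.irrational.1 (5 * w) (7 * w) (by linarith)
  set P : ℕ := 8 * (4 * T + 4 + g + i * (θ + 1) + i * thr2 w) with hP
  set K : ℕ := κ i P + 2 * P + 1 with hK
  set H : ℕ := K + T + 1 with hH
  set S : ℕ := H + 2 ^ (i + 1) * (2 * H + 1) ^ 2 + 1 with hS
  have hη : 0 < μ₀ / (2 ^ i * (2 * (H : ℝ) + 1) ^ 2) := by positivity
  obtain ⟨N, V, Z, hsys, hNw, hV0, huniv⟩ := level_theorem a₁ a₂ hα (2 * S) K (by omega) (e K)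
    (μ₀ / (2 ^ i * (2 * (H : ℝ) + 1) ^ 2)) w (he K) hη hw
  obtain ⟨δ, hδ, hδS⟩ := exists_Lf_sep a₁ a₂ hα (2 * S)
  have hN := hsys.hN
  -- first hits
  set lo : ℤ → ℤ → ℤ := fun c r => (fst a₁ a₂ w (ctr N c) r 0 : ℤ) with hlo
  set hi : ℤ → ℤ → ℤ := fun c r => (K : ℤ) + 1 + (fst a₁ a₂ w (ctr N c) r (K + 1) : ℤ) with hhi
  have hlo0 : ∀ c r, 0 ≤ lo c r := fun c r => by simp [hlo]
  have hloT : ∀ c r, lo c r < T := fun c r => by
    simp only [hlo]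
    exact_mod_cast (fst_spec hT (ctr N c) r 0).1
  have hloH : ∀ c r, Hit a₁ a₂ w (ctr N c) r (lo c r) := fun c r => by
    simpa [hlo] using (fst_spec hT (ctr N c) r 0).2.1
  have hlomin : ∀ c r, ∀ a : ℤ, 0 ≤ a → Hit a₁ a₂ w (ctr N c) r a → lo c r ≤ a := by
    intro c r a ha h
    obtain ⟨b, rfl⟩ := Int.eq_ofNat_of_zero_le ha
    have := (fst_spec (a₂ := a₂) hT (ctr N c) r 0).2.2 b (by simpa using h)
    simp only [hlo]
    exact_mod_cast this
  have hhiK : ∀ c r, (K : ℤ) + 1 ≤ hi c r := fun c r => by simp [hhi]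
  have hhiT : ∀ c r, hi c r ≤ K + T := fun c r => by
    have := (fst_spec (a₂ := a₂) hT (ctr N c) r (K + 1)).1
    simp only [hhi]
    omega
  have hhiH : ∀ c r, Hit a₁ a₂ w (ctr N c) r (hi c r) := fun c r =>
    (fst_spec hT (ctr N c) r (K + 1)).2.1
  have hTK : T ≤ K := by omega
  have hlohi : ∀ c r, lo c r < hi c r := fun c r => by
    have h1 := hloT c r
    have h2 := hhiK c r
    omega
  have hhiHH : ∀ c r, hi c r ≤ H := fun c r => by
    have := hhiT c r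
    omega
  have hlop : ∀ c r, lo (c + N) r = lo c r := fun c r => by
    simp only [hlo, ctr_add hN, fst_add_one]
  have hhip : ∀ c r, hi (c + N) r = hi c r := fun c r => by
    simp only [hhi, ctr_add hN, fst_add_one]
  set G : Set ℝ := Pat a₁ a₂ N H Z (fun c v => |v.2| ≤ K ∧ lo c v.2 < v.1 ∧ v.1 ≤ hi c v.2) with hG
  obtain ⟨hmem, hpos, hneg⟩ := Pat_values a₁ a₂ (2 * S) N H K V Z hsys (by omega) (by omega) lo hi
    hlo0 hlohi hhiHH G hG
  obtain ⟨hGper, hGreg, hGfr, hGvol⟩ := Pat_regular a₁ a₂ (2 * S) N H V Z hsys (by omega)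
    (fun c v => |v.2| ≤ K ∧ lo c v.2 < v.1 ∧ v.1 ≤ hi c v.2) (by
      intro c v
      simp only [hlop, hhip])
  obtain ⟨-, hpreg, hpfr, -⟩ := Pat_regular a₁ a₂ (2 * S) N H V Z hsys (by omega)
    (fun c v => |v.2| ≤ K ∧ v.1 = hi c v.2) (by
      intro c v
      simp only [hhip])
  obtain ⟨-, hnreg, hnfr, -⟩ := Pat_regular a₁ a₂ (2 * S) N H V Z hsys (by omega)
    (fun c v => |v.2| ≤ K ∧ v.1 = lo c v.2) (by
      intro c v
      simp only [hlop])
  have hpattern : ∀ k, ∀ z ∈ Z k, ∀ r : ℤ, |r| ≤ K → ∀ a : ℤ, |a| ≤ K →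
      cob a₁ G (z + Lf a₁ a₂ (a, r)) = if a = lo ⌊(N : ℝ) * z⌋ r then -1 else 0 := by
    intro k z hz r hr a ha
    have ha' := abs_le.mp ha
    have h1 := hmem k z hz (a, r) (by simp only; omega) (by simp only; omega)
    have h2 := hmem k z hz (a + 1, r) (by
      simp only
      have : |a + 1| ≤ K + 1 := abs_le.mpr ⟨by omega, by omega⟩
      omega) (by simp only; omega)
    have h3 : z + Lf a₁ a₂ (a, r) + a₁ = z + Lf a₁ a₂ (a + 1, r) := by
      simp only [Lf]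
      push_cast
      ring
    have h4 := hhiK ⌊(N : ℝ) * z⌋ r
    have h5 : z + Lf a₁ a₂ (a, r) ∈ G ↔ lo ⌊(N : ℝ) * z⌋ r < a := by
      rw [h1]
      simp only
      constructor
      · rintro ⟨-, h, -⟩
        exact h
      · intro h
        exact ⟨hr, h, by omega⟩
    have h6 : z + Lf a₁ a₂ (a, r) + a₁ ∈ G ↔ lo ⌊(N : ℝ) * z⌋ r ≤ a := by
      rw [h3, h2]
      simp only
      constructor
      · rintro ⟨-, h, -⟩
        omega
      · intro h
        exact ⟨hr, by omega, by omega⟩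
    unfold cob
    by_cases h7 : a = lo ⌊(N : ℝ) * z⌋ r
    · rw [if_pos h7, indicator_of_notMem (by rw [h5]; omega), indicator_of_mem (by rw [h6]; omega)]
      rfl
    · rw [if_neg h7]
      by_cases h8 : lo ⌊(N : ℝ) * z⌋ r < a
      · rw [indicator_of_mem (by rw [h5]; omega), indicator_of_mem (by rw [h6]; omega)]
        rfl
      · rw [indicator_of_notMem (by rw [h5]; omega), indicator_of_notMem (by rw [h6]; omega)]
        rfl
  have hVanti : ∀ k k', k ≤ k' → V k' ⊆ V k := by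
    intro k k' h
    induction k', h using Nat.le_induction with
    | base => exact subset_rfl
    | succ n hn ih => exact ((subset_closure.trans (hsys.Vclosure n)).trans ih)
  have hZV : ∀ k, Z k ⊆ V k := fun k => subset_closure.trans (hsys.ZV k)
  have hLneg : ∀ u : ℤ × ℤ, Lf a₁ a₂ (-u) = -Lf a₁ a₂ u := by
    intro u
    simp only [Lf, Prod.fst_neg, Prod.snd_neg]
    push_cast
    ring
  have hsep : ∀ z ∈ ⋃ k, Z k, ∀ u : ℤ × ℤ, u ≠ 0 → InSq (2 * S) u →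
      z + Lf a₁ a₂ u ∉ ⋃ k, Z k := by
    intro z hz u hu hus hz'
    obtain ⟨k, hk⟩ := mem_iUnion.mp hz
    obtain ⟨k', hk'⟩ := mem_iUnion.mp hz'
    rcases lt_trichotomy k k' with h | h | h
    · exact hsys.far k z (subset_closure hk) u hus (hVanti (k + 1) k' h (hZV k' hk'))
    · subst h
      exact hsys.sep k z (subset_closure hk) u hu hus (subset_closure hk')
    · refine hsys.far k' (z + Lf a₁ a₂ u) (subset_closure hk') (-u) ?_
        (hVanti (k' + 1) k h (by rw [hLneg, add_neg_cancel_right]; exact hZV k hk))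
      unfold InSq at hus ⊢
      simpa using hus
  have hwin : ∀ z : ℝ, ∀ r a : ℤ, Hit a₁ a₂ w (ctr N ⌊(N : ℝ) * z⌋) r a →
      ∃ u : ℤ, z + Lf a₁ a₂ (a, r) + u ∈ Ioo (4 * w) (8 * w) := by
    rintro z r a ⟨u, hu1, hu2⟩
    have h1 := abs_le.mp (ctr_close hN hNw z)
    exact ⟨u, by constructor <;> linarith [h1.1, h1.2]⟩
  refine ⟨⟨w, g, T, P, K, S, H, min (2 * w) (min (e K) δ), ⋃ k, Z k, G⟩, ?_⟩
  refine
    { wpos := hw
      wε := hwε
      ε'pos := lt_min (by linarith) (lt_min (he K) hδ)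
      ε'w := min_le_left _ _
      ε'e := (min_le_right _ _).trans (min_le_left _ _)
      ε'S := fun v hv hvs u => ((min_le_right _ _).trans (min_le_right _ _)).trans (hδS v hv hvs u)
      hg := hg
      gap := hgw
      P8 := ⟨_, hP⟩
      PT := by simp only; omega
      gP := by simp only; omega
      Pθ := by simp only; omega
      Pthr2 := by simp only; omega
      Kκ := by simp only; omega
      KP := by simp only; omega
      Zper := ?_
      Gper := hGper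
      Zopen := ?_
      Gfr := hGfr
      Gvol := ?_
      posreg := by simp only; rw [hpos]; exact hpreg
      posfr := by simp only; rw [hpos]; exact hpfr
      negreg := by simp only; rw [hneg]; exact hnreg
      negfr := by simp only; rw [hneg]; exact hnfr
      supp := ?_
      hGs := ?_
      hsep := hsep
      hsize := le_refl _
      pattern := ?_
      small := ?_
      univ := ?_ }
  · intro x
    simp only [mem_iUnion]
    exact exists_congr fun k => hsys.Zper k x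
  · exact isOpen_iUnion fun k => by rw [← hsys.Zreg k]; exact isOpen_interior
  · refine hGvol.trans ((mul_le_mul_right hV0 _).trans (le_of_eq ?_))
    have h1 : ((2 * (H : ENNReal) + 1) ^ 2) = ENNReal.ofReal ((2 * (H : ℝ) + 1) ^ 2) := by
      rw [ENNReal.ofReal_pow (by positivity), ENNReal.ofReal_add (by positivity) (by norm_num),
        ENNReal.ofReal_mul (by norm_num)]
      simp
    rw [h1, ← ENNReal.ofReal_mul (by positivity)]
    congr 1
    have h2 : (2 * (H : ℝ) + 1) ^ 2 ≠ 0 := by positivity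
    have h3 : (2 : ℝ) ^ i ≠ 0 := by positivity
    field_simp
  · intro x hx
    rcases cob_cases a₁ G x hx with h | h
    · have h1 : x ∈ {x | cob a₁ G x = 1} := h
      rw [hpos] at h1
      obtain ⟨k, z, hz, v, hvs, ⟨-, hv⟩, rfl⟩ := h1
      obtain ⟨u, hu⟩ := hwin z v.2 v.1 (by rw [hv]; exact hhiH _ _)
      exact ⟨u, hu⟩
    · have h1 : x ∈ {x | cob a₁ G x = -1} := h
      rw [hneg] at h1
      obtain ⟨k, z, hz, v, hvs, ⟨-, hv⟩, rfl⟩ := h1
      obtain ⟨u, hu⟩ := hwin z v.2 v.1 (by rw [hv]; exact hloH _ _)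
      exact ⟨u, hu⟩
  · rintro x ⟨k, z, hz, v, hvs, ⟨h1, h2, h3⟩, rfl⟩
    have h4 := hlo0 ⌊(N : ℝ) * z⌋ v.2
    have h5 := hhiHH ⌊(N : ℝ) * z⌋ v.2
    refine ⟨z, mem_iUnion.mpr ⟨k, hz⟩, v, hvs.1, abs_le.mpr ⟨by simp only; omega, by
      simp only; omega⟩, hvs.2, rfl⟩
  · intro z hz r hr
    obtain ⟨k, hk⟩ := mem_iUnion.mp hz
    exact ⟨lo ⌊(N : ℝ) * z⌋ r, hlo0 _ _, hloT _ _, hpattern k z hk r hr⟩
  · rintro z hz r hr a ha hag ⟨u, hu⟩
    obtain ⟨k, hk⟩ := mem_iUnion.mp hz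
    have h1 := abs_le.mp (ctr_close hN hNw z)
    have h2 : ctr N ⌊(N : ℝ) * z⌋ + Lf a₁ a₂ (a, r) + u ∈ Ioo (5 * w) (7 * w) := by
      simp only at hu
      constructor <;> linarith [h1.1, h1.2, hu.1, hu.2]
    have h3 := hlomin _ _ a ha ⟨u, h2⟩
    have h4 : a = lo ⌊(N : ℝ) * z⌋ r := by
      by_contra hne
      obtain ⟨u', hu'⟩ := hloH ⌊(N : ℝ) * z⌋ r
      have h5 := hlo0 ⌊(N : ℝ) * z⌋ r
      simp only at hag
      have h6 := hgap (a - lo ⌊(N : ℝ) * z⌋ r) (by omega) (abs_le.mpr ⟨by omega, by omega⟩)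
        (u' - u)
      have h7 : ((a - lo ⌊(N : ℝ) * z⌋ r : ℤ) : ℝ) * a₁ - ((u' - u : ℤ) : ℝ) =
          (ctr N ⌊(N : ℝ) * z⌋ + Lf a₁ a₂ (a, r) + u) -
          (ctr N ⌊(N : ℝ) * z⌋ + Lf a₁ a₂ (lo ⌊(N : ℝ) * z⌋ r, r) + u') := by
        simp only [Lf]
        push_cast
        ring
      rw [h7] at h6
      have h8 : |(ctr N ⌊(N : ℝ) * z⌋ + Lf a₁ a₂ (a, r) + u) -
          (ctr N ⌊(N : ℝ) * z⌋ + Lf a₁ a₂ (lo ⌊(N : ℝ) * z⌋ r, r) + u')| < 4 * w := by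
        rw [abs_lt]
        constructor <;> linarith [h2.1, h2.2, hu'.1, hu'.2]
      linarith
    simp only
    rw [hpattern k z hk r hr a (abs_le.mpr ⟨by omega, by simp only at hag; omega⟩), if_pos h4]
  · intro k' hk' s q hs hsq c
    obtain ⟨t, ht, h⟩ := huniv k' hk' s q hs hsq c
    exact ⟨t, ht, fun l => mem_iUnion.mpr (h l)⟩

end GB
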