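import Pool.Agent.Helper70.GB.Defs

/-!
# Transfer of the notions along measure preserving isometries
-/

open Set MeasureTheory

namespace GB

section
variable {E F : Type*} [MetricSpace E] [MeasureSpace E] [OpensMeasurableSpace E]
  [MetricSpace F] [MeasureSpace F] [OpensMeasurableSpace F]

lemma transfer_geomBody (φ : E ≃ᵢ F) (hφ : MeasurePreserving φ.symm volume volume) {A : Set E}
    (hA : IsGeomBody A) : IsGeomBody (φ '' A) := by
  obtain ⟨h1, h2, h3⟩ := hA
  refine ⟨?_, ?_, ?_⟩
  · exact φ.isometry.lipschitz.isBounded_image h1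
  · have e1 : closure (φ '' A) = φ '' closure A := (φ.toHomeomorph.image_closure A).symm
    have e2 : interior (φ '' closure A) = φ '' interior (closure A) :=
      (φ.toHomeomorph.image_interior _).symm
    rw [e1, e2, h2]
  · have e1 : frontier (φ '' A) = φ '' frontier A := (φ.toHomeomorph.image_frontier A).symm
    have e2 : φ '' frontier A = φ.symm ⁻¹' frontier A := φ.image_eq_preimage_symm _
    rw [e1, e2, hφ.measure_preimage isClosed_frontier.measurableSet.nullMeasurableSet, h3]

omit [MeasureSpace E] [OpensMeasurableSpace E] [MeasureSpace F] [OpensMeasurableSpace F] in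
lemma image_conj (φ : E ≃ᵢ F) (g : E ≃ᵢ E) (P : Set E) :
    ((φ.symm.trans g).trans φ) '' (φ '' P) = φ '' (g '' P) := by
  rw [← image_comp, ← image_comp]
  congr 1
  funext x
  simp

lemma transfer_arb (φ : E ≃ᵢ F) {A B : Set E} (h : EquidecArb A B) :
    EquidecArb (φ '' A) (φ '' B) := by
  obtain ⟨k, P, g, h1, h2, h3, h4⟩ := h
  refine ⟨k, fun i => φ '' P i, fun i => (φ.symm.trans (g i)).trans φ, ?_, ?_, ?_, ?_⟩
  · intro i j hij
    exact (disjoint_image_iff φ.injective).mpr (h1 hij)
  · rw [h2, image_iUnion]
  · intro i j hij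
    simp only [image_conj]
    exact (disjoint_image_iff φ.injective).mpr (h3 hij)
  · simp only [image_conj]
    rw [h4, image_iUnion]

lemma transfer_geom (φ : E ≃ᵢ F) (hφ : MeasurePreserving φ.symm volume volume) {A B : Set E}
    (h : EquidecGeom A B) : EquidecGeom (φ '' A) (φ '' B) := by
  obtain ⟨k, P, g, h0, h1, h2, h3, h4⟩ := h
  have key : ∀ C : Fin k → Set E, φ '' (interior (closure (⋃ i, C i))) =
      interior (closure (⋃ i, φ '' C i)) := by
    intro C
    rw [← image_iUnion]
    have e1 : closure (φ '' (⋃ i, C i)) = φ '' closure (⋃ i, C i) :=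
      (φ.toHomeomorph.image_closure _).symm
    have e2 : interior (φ '' closure (⋃ i, C i)) = φ '' interior (closure (⋃ i, C i)) :=
      (φ.toHomeomorph.image_interior _).symm
    rw [e1, e2]
  refine ⟨k, fun i => φ '' P i, fun i => (φ.symm.trans (g i)).trans φ, ?_, ?_, ?_, ?_, ?_⟩
  · intro i
    exact transfer_geomBody φ hφ (h0 i)
  · intro i j hij
    exact (disjoint_image_iff φ.injective).mpr (h1 hij)
  · rw [h2, key]
  · intro i j hij
    simp only [image_conj]
    exact (disjoint_image_iff φ.injective).mpr (h3 hij)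
  · simp only [image_conj]
    rw [h4, key]

/-- Transfer of a counterexample. -/
lemma transfer_all (φ : E ≃ᵢ F) (hφ : MeasurePreserving φ volume volume)
    (hφ' : MeasurePreserving φ.symm volume volume) {A B : Set E} (hA : IsGeomBody A)
    (hB : IsGeomBody B) (h : EquidecArb A B) (h' : ¬ EquidecGeom A B) :
    ∃ A' B' : Set F, IsGeomBody A' ∧ IsGeomBody B' ∧ EquidecArb A' B' ∧ ¬ EquidecGeom A' B' := by
  refine ⟨φ '' A, φ '' B, transfer_geomBody φ hφ' hA, transfer_geomBody φ hφ' hB,
    transfer_arb φ h, ?_⟩
  intro hcon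
  apply h'
  have := transfer_geom φ.symm hφ hcon
  have e : ∀ C : Set E, φ.symm '' (φ '' C) = C := by
    intro C
    rw [← image_comp]
    have : (φ.symm ∘ φ : E → E) = id := by
      funext x; simp
    rw [this, image_id]
  rwa [e, e] at this

end

/-- The line as a one-dimensional Euclidean space. -/
noncomputable def lineIso : ℝ ≃ᵢ EuclideanSpace ℝ (Fin 1) :=
  ((OrthonormalBasis.singleton (Fin 1) ℝ).repr).toIsometryEquiv

lemma lineIso_mp : MeasurePreserving lineIso volume volume := by
  have := (OrthonormalBasis.singleton (Fin 1) ℝ).measurePreserving_repr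
  exact this

lemma lineIso_symm_mp : MeasurePreserving lineIso.symm volume volume := by
  have := (OrthonormalBasis.singleton (Fin 1) ℝ).measurePreserving_repr_symm
  exact this

/-- Transfer from the line to the one-dimensional Euclidean space. -/
theorem transfer_line {A B : Set ℝ} (hA : IsGeomBody A)
    (hB : IsGeomBody B) (h : EquidecArb A B) (h' : ¬ EquidecGeom A B) :
    ∃ A' B' : Set (EuclideanSpace ℝ (Fin 1)), IsGeomBody A' ∧ IsGeomBody B' ∧
      EquidecArb A' B' ∧ ¬ EquidecGeom A' B' :=
  transfer_all lineIso lineIso_mp lineIso_symm_mp hA hB h h'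

end GB
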