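import Pool.Agent.Helper70.GB.Obs
import Pool.Agent.Helper70.GB.Transfer
import Pool.Agent.Helper70.GB.GoodLevel
import Pool.Agent.Helper87.GB.A12

/-!
# The counterexample in dimension one
-/

open Set MeasureTheory Filter Topology

namespace GB

theorem exists_levels (a₁ a₂ : ℝ) (hα : QIndep a₁ a₂) (thr : ℕ → Set ℝ → ℕ) (thr2 : ℝ → ℕ)
    (κ : ℕ → ℕ → ℕ) (e : ℕ → ℝ) (he : ∀ n, 0 < e n) (μ₀ : ℝ) (hμ₀ : 0 < μ₀) :
    ∃ (X : ℕ → Lev) (ε : ℕ → ℝ) (θ : ℕ → ℕ), Levels a₁ a₂ thr thr2 κ e μ₀ X ε θ :=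
  exists_levels_of a₁ a₂ thr thr2 κ e μ₀
    (fun i ε h θ => exists_good_level a₁ a₂ hα thr2 κ e he μ₀ hμ₀ i ε h θ)

theorem main_one : ∃ A B : Set ℝ, IsGeomBody A ∧ IsGeomBody B ∧ EquidecArb A B ∧
    ¬ EquidecGeom A B := by
  have hα := exists_qindep
  obtain ⟨X, ε, θ, h⟩ := exists_levels (Real.sqrt 2) (Real.sqrt 3) hα
    (thrOne (Real.sqrt 2) (1 / 16)) (fun _ => 0)
    (fun i P => 2 * (2 * P + 1) ^ (i + 1) * (P + 1)) (fun n => 1 / (8 * 4 ^ n))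
    (fun n => by positivity) (1 / 16) (by norm_num)
  exact ⟨_, _, (body_geom h).1, (body_geom h).2, body_equidec hα h,
    not_equidecGeom_one hα (fun n => le_rfl) (fun i P => le_rfl) h⟩

theorem main_line : ∃ A B : Set (EuclideanSpace ℝ (Fin 1)), IsGeomBody A ∧ IsGeomBody B ∧
    EquidecArb A B ∧ ¬ EquidecGeom A B := by
  obtain ⟨A, B, h1, h2, h3, h4⟩ := main_one
  exact transfer_line h1 h2 h3 h4

end GB
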