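import Pool.Agent.Helper70.GB.Types

/-!
# Distance to the nearest integer, avoidance lemmas
-/

open Set MeasureTheory Filter Topology

namespace GB

/-- distance to the nearest integer -/
noncomputable def dZ (x : ℝ) : ℝ := |x - round x|

lemma dZ_eq_norm (x : ℝ) : dZ x = ‖(x : AddCircle (1 : ℝ))‖ := by
  rw [dZ, UnitAddCircle.norm_eq]

lemma dZ_nonneg (x : ℝ) : 0 ≤ dZ x := abs_nonneg _

lemma dZ_le (x : ℝ) (u : ℤ) : dZ x ≤ |x - u| := round_le x u

lemma dZ_le_abs (x : ℝ) : dZ x ≤ |x| := by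
  have := dZ_le x 0
  simpa using this

lemma dZ_le_half (x : ℝ) : dZ x ≤ 1 / 2 := abs_sub_round x

lemma lt_dZ_iff (c x : ℝ) : c < dZ x ↔ ∀ u : ℤ, c < |x - u| :=
  ⟨fun h u => h.trans_le (dZ_le x u), fun h => h (round x)⟩

lemma le_dZ_iff (c x : ℝ) : c ≤ dZ x ↔ ∀ u : ℤ, c ≤ |x - u| :=
  ⟨fun h u => h.trans (dZ_le x u), fun h => h (round x)⟩

lemma dZ_add_int (x : ℝ) (m : ℤ) : dZ (x + m) = dZ x := by
  rw [dZ, dZ, round_add_intCast]
  push_cast
  ring_nf

lemma dZ_sub_int (x : ℝ) (m : ℤ) : dZ (x - m) = dZ x := by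
  have := dZ_add_int x (-m)
  push_cast at this
  rw [← sub_eq_add_neg] at this
  exact this

lemma dZ_int (m : ℤ) : dZ (m : ℝ) = 0 := by
  simp [dZ]

lemma dZ_neg (x : ℝ) : dZ (-x) = dZ x := by
  rw [dZ_eq_norm, dZ_eq_norm]
  rw [AddCircle.coe_neg, norm_neg]

lemma dZ_sub_le (x y : ℝ) : dZ (x - y) ≤ dZ x + dZ y := by
  rw [dZ_eq_norm, dZ_eq_norm, dZ_eq_norm, AddCircle.coe_sub]
  exact norm_sub_le _ _

lemma dZ_add_le (x y : ℝ) : dZ (x + y) ≤ dZ x + dZ y := by
  rw [dZ_eq_norm, dZ_eq_norm, dZ_eq_norm, AddCircle.coe_add]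
  exact norm_add_le _ _

lemma dZ_le_add_abs (x y : ℝ) : dZ x ≤ dZ y + |x - y| := by
  have h := dZ_add_le y (x - y)
  have h2 := dZ_le_abs (x - y)
  have : y + (x - y) = x := by ring
  rw [this] at h
  linarith

lemma dZ_continuous : Continuous dZ := by
  have : dZ = fun x : ℝ => ‖(x : AddCircle (1 : ℝ))‖ := by
    funext x; exact dZ_eq_norm x
  rw [this]
  exact continuous_norm.comp (AddCircle.continuous_mk' (1 : ℝ))

/-- for `0 ≤ θ ≤ 1/2` the distance to the nearest integer is `θ`. -/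
lemma dZ_of_le_half (θ : ℝ) (h : |θ| ≤ 1 / 2) : dZ θ = |θ| := by
  apply le_antisymm (dZ_le_abs θ)
  rw [le_dZ_iff]
  intro u
  rcases eq_or_ne u 0 with rfl | hu
  · simp
  · have h1 : (1 : ℝ) ≤ |(u : ℝ)| := by
      rw [← Int.cast_abs]
      exact_mod_cast Int.one_le_abs hu
    have h2 : |(u : ℝ)| - |θ| ≤ |θ - u| := by
      have := abs_sub_abs_le_abs_sub (u : ℝ) θ
      rwa [abs_sub_comm] at this
    linarith

/-- countability of level sets. -/
lemma dZ_level_countable (N q c : ℝ) (hN : N ≠ 0) : {x : ℝ | dZ (N * x + q) = c}.Countable := by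
  have : {x : ℝ | dZ (N * x + q) = c} ⊆
      (⋃ m : ℤ, ({(m + c - q) / N, (m - c - q) / N} : Set ℝ)) := by
    intro x hx
    rw [mem_ofPred_eq] at hx
    rw [mem_iUnion]
    refine ⟨round (N * x + q), ?_⟩
    rw [dZ] at hx
    have hc : 0 ≤ c := hx ▸ abs_nonneg _
    generalize round (N * x + q) = m at hx ⊢
    rcases abs_cases (N * x + q - m) with ⟨h, _⟩ | ⟨h, _⟩
    · left
      rw [h] at hx
      field_simp
      linarith
    · right
      rw [h] at hx
      simp only [mem_singleton_iff]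
      field_simp
      linarith
  apply Countable.mono this
  apply countable_iUnion
  intro m
  exact (Set.toFinite _).countable

lemma avoid_one (N : ℝ) (hN : 0 < N) (s q : ℝ) (hs : s ≠ 0) (t₀ lam : ℝ) (hlam : 0 < lam)
    (h : N * |s| * lam ≤ 1) :
    ∃ t₁, t₀ ≤ t₁ ∧ t₁ + lam / 4 ≤ t₀ + lam ∧
      ∀ t ∈ Icc t₁ (t₁ + lam / 4), N * |s| * lam / 8 ≤ dZ (N * (s * t + q)) := by
  have hs' : 0 < |s| := abs_pos.mpr hs
  set p₁ := t₀ + lam / 4
  set p₂ := t₀ + 3 * lam / 4
  have hkey : ∃ p, (p = p₁ ∨ p = p₂) ∧ N * |s| * lam / 4 ≤ dZ (N * (s * p + q)) := by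
    by_contra hcon
    push Not at hcon
    have h1 := hcon p₁ (Or.inl rfl)
    have h2 := hcon p₂ (Or.inr rfl)
    have h3 := dZ_sub_le (N * (s * p₂ + q)) (N * (s * p₁ + q))
    have h4 : N * (s * p₂ + q) - N * (s * p₁ + q) = N * s * (lam / 2) := by
      simp only [p₁, p₂]; ring
    rw [h4] at h3
    have h5 : |N * s * (lam / 2)| = N * |s| * lam / 2 := by
      rw [abs_mul, abs_mul, abs_of_pos hN, abs_of_pos (by linarith : 0 < lam / 2)]
      ring
    rw [dZ_of_le_half _ (by rw [h5]; linarith), h5] at h3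
    linarith
  obtain ⟨p, hp, hpd⟩ := hkey
  refine ⟨p - lam / 8, ?_, ?_, ?_⟩
  · rcases hp with rfl | rfl
    · simp only [p₁]; linarith
    · simp only [p₂]; linarith
  · rcases hp with rfl | rfl
    · simp only [p₁]; linarith
    · simp only [p₂]; linarith
  · intro t ht
    have h1 := dZ_le_add_abs (N * (s * p + q)) (N * (s * t + q))
    have h2 : |N * (s * p + q) - N * (s * t + q)| ≤ N * |s| * (lam / 8) := by
      have : N * (s * p + q) - N * (s * t + q) = N * s * (p - t) := by ring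
      rw [this, abs_mul, abs_mul, abs_of_pos hN]
      apply mul_le_mul_of_nonneg_left _ (by positivity)
      rw [abs_le]
      obtain ⟨h3, h4⟩ := ht
      constructor <;> linarith
    nlinarith

/-- Simultaneous avoidance for a finite family of affine maps at one scale. -/
lemma avoid_finset {ι : Type*} [DecidableEq ι] (N : ℝ) (hN : 0 < N) (s q : ι → ℝ) (lam : ℝ)
    (hlam : 0 < lam) (F : Finset ι) (hs : ∀ i ∈ F, s i ≠ 0)
    (hslope : ∀ i ∈ F, N * |s i| * lam ≤ 1) (t₀ : ℝ) :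
    ∃ t₁, t₀ ≤ t₁ ∧ t₁ + lam / 4 ^ F.card ≤ t₀ + lam ∧
      ∀ i ∈ F, ∀ t ∈ Icc t₁ (t₁ + lam / 4 ^ F.card),
        N * |s i| * lam / (8 * 4 ^ F.card) ≤ dZ (N * (s i * t + q i)) := by
  induction F using Finset.induction_on with
  | empty => exact ⟨t₀, le_rfl, by simp, by simp⟩
  | insert a F ha ih =>
    obtain ⟨t₁, h1, h2, h3⟩ := ih (fun i hi => hs i (Finset.mem_insert_of_mem hi))
      (fun i hi => hslope i (Finset.mem_insert_of_mem hi))
    have hpow : (0 : ℝ) < 4 ^ F.card := by positivity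
    have hpow1 : (1 : ℝ) ≤ 4 ^ F.card := one_le_pow₀ (by norm_num)
    have hsa : 0 < |s a| := abs_pos.mpr (hs a (Finset.mem_insert_self _ _))
    have hsl := hslope a (Finset.mem_insert_self _ _)
    have hle : lam / 4 ^ F.card ≤ lam := div_le_self hlam.le hpow1
    obtain ⟨t₂, h4, h5, h6⟩ := avoid_one N hN (s a) (q a) (hs a (Finset.mem_insert_self _ _)) t₁
      (lam / 4 ^ F.card) (by positivity) (by
        calc N * |s a| * (lam / 4 ^ F.card) ≤ N * |s a| * lam := by
              apply mul_le_mul_of_nonneg_left hle (by positivity)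
          _ ≤ 1 := hsl)
    rw [Finset.card_insert_of_notMem ha]
    have hlen : lam / 4 ^ (F.card + 1) = lam / 4 ^ F.card / 4 := by
      rw [pow_succ]; field_simp
    refine ⟨t₂, h1.trans h4, ?_, ?_⟩
    · rw [hlen]; linarith
    · intro i hi t ht
      rw [hlen] at ht
      rcases Finset.mem_insert.mp hi with rfl | hi
      · have h7 := h6 t ht
        refine le_trans (le_of_eq_of_le ?_ (le_refl (N * |s i| * (lam / 4 ^ F.card) / 8 / 4))) ?_
        · rw [pow_succ]; field_simp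
        · have : 0 ≤ N * |s i| * (lam / 4 ^ F.card) / 8 := by positivity
          linarith
      · have h7 := h3 i hi t ⟨h4.trans ht.1, ht.2.trans h5⟩
        refine le_trans ?_ h7
        apply div_le_div_of_nonneg_left (by positivity) (by positivity)
        apply mul_le_mul_of_nonneg_left _ (by norm_num)
        apply pow_le_pow_right₀ (by norm_num) (Nat.le_succ _)

end GB
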