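import Mathlib

/-!
# MP_02f2ca_gt : common definitions for the module files
-/

open Set MeasureTheory

namespace GB

/-- A *geometric body*: bounded, regular-open, with (Jordan/Lebesgue) null boundary. -/
def IsGeomBody {E : Type*} [PseudoMetricSpace E] [MeasureSpace E] (A : Set E) : Prop :=
  Bornology.IsBounded A ∧ interior (closure A) = A ∧ volume (frontier A) = 0

/-- Equidecomposability with arbitrary pieces, under the full isometry group. -/
def EquidecArb {E : Type*} [PseudoEMetricSpace E] (A B : Set E) : Prop :=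
  ∃ (k : ℕ) (P : Fin k → Set E) (g : Fin k → (E ≃ᵢ E)),
    (Pairwise fun i j => Disjoint (P i) (P j)) ∧ A = ⋃ i, P i ∧
    (Pairwise fun i j => Disjoint (g i '' P i) (g j '' P j)) ∧ B = ⋃ i, g i '' P i

/-- Equidecomposability as geometric bodies, under the full isometry group. -/
def EquidecGeom {E : Type*} [PseudoMetricSpace E] [MeasureSpace E] (A B : Set E) : Prop :=
  ∃ (k : ℕ) (P : Fin k → Set E) (g : Fin k → (E ≃ᵢ E)),
    (∀ i, IsGeomBody (P i)) ∧ (Pairwise fun i j => Disjoint (P i) (P j)) ∧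
    A = interior (closure (⋃ i, P i)) ∧
    (Pairwise fun i j => Disjoint (g i '' P i) (g j '' P j)) ∧
    B = interior (closure (⋃ i, g i '' P i))

/-- The lattice functional `v ↦ v₁ a₁ + v₂ a₂`. -/
def Lf (a₁ a₂ : ℝ) (v : ℤ × ℤ) : ℝ := v.1 * a₁ + v.2 * a₂

/-- `1, a₁, a₂` are linearly independent over `ℚ`. -/
def QIndep (a₁ a₂ : ℝ) : Prop := ∀ (v : ℤ × ℤ) (k : ℤ), Lf a₁ a₂ v = k → v = 0

/-- `1`-periodic sets of reals. -/
def Per (A : Set ℝ) : Prop := ∀ x, x + 1 ∈ A ↔ x ∈ A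

/-- sup-norm balls in `ℤ²` -/
def InSq (t : ℕ) (u : ℤ × ℤ) : Prop := |u.1| ≤ t ∧ |u.2| ≤ t

/-- The four unit vectors of `ℤ²`. -/
def dirs : Finset (ℤ × ℤ) := {(1, 0), (-1, 0), (0, 1), (0, -1)}

open Classical in
/-- Number of boundary edges of a finite set in an abelian group with a marked `ℤ²`-action. -/
noncomputable def bdry {G : Type*} [AddCommGroup G] (ι : ℤ × ℤ →+ G) (F : Finset G) : ℕ :=
  ∑ e ∈ dirs, (F.filter (fun g => g + ι e ∉ F)).card

/-- The homomorphism `ℤ² → ℝ/ℤ`, `v ↦ v₁ a₁ + v₂ a₂ mod 1`. -/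
noncomputable def iota (a₁ a₂ : ℝ) : ℤ × ℤ →+ AddCircle (1 : ℝ) where
  toFun v := ((Lf a₁ a₂ v : ℝ) : AddCircle (1 : ℝ))
  map_zero' := by simp [Lf]
  map_add' v w := by
    rw [← AddCircle.coe_add]
    congr 1
    simp only [Lf, Prod.fst_add, Prod.snd_add]
    push_cast
    ring

/-- The periodization (counting function) of a subset of `ℝ`. -/
noncomputable def perCount (A : Set ℝ) (x : ℝ) : ℕ := Set.ncard {u : ℤ | x + u ∈ A}

end GB
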