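import Pool.Agent.Helper70.GB.DZ

/-!
# The level theorem, part A: the seed system (topology, separation)
-/

open Set MeasureTheory Filter Topology

namespace GB

/-- sup-norm square as a finset -/
noncomputable def sq (S : ℕ) : Finset (ℤ × ℤ) :=
  Finset.Icc (-(S : ℤ)) S ×ˢ Finset.Icc (-(S : ℤ)) S

lemma mem_sq {S : ℕ} {v : ℤ × ℤ} : v ∈ sq S ↔ InSq S v := by
  simp only [sq, Finset.mem_product, Finset.mem_Icc, InSq, abs_le]

lemma card_sq (S : ℕ) : (sq S).card = (2 * S + 1) ^ 2 := by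
  rw [sq, Finset.card_product, Int.card_Icc]
  have : ((S : ℤ) + 1 - -(S : ℤ)).toNat = 2 * S + 1 := by omega
  rw [this, pow_two]

/-- test functions of the seed construction -/
noncomputable def phi (b J₂ : ℕ) (c r : ℕ → ℝ) (i : ℕ) (x : ℝ) : ℝ :=
  max ((b : ℝ) * dZ ((b * (b ^ 3) ^ (J₂ + i) : ℕ) * x)) (2 * dZ (x - c i) / r i)

/-- neighbourhood sets -/
def VV (a₁ a₂ : ℝ) (S b j₀ J₂ : ℕ) (c r : ℕ → ℝ) (k : ℕ) (τ : ℝ) : Set ℝ :=
  {x | (∀ j, j₀ ≤ j → j < J₂ + k → τ < (b : ℝ) * dZ (((b ^ 3) ^ j : ℕ) * x)) ∧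
    ∀ i < k, ∀ v, InSq S v → τ < phi b J₂ c r i (x - Lf a₁ a₂ v)}

/-- raw seed sets -/
def ZZ (a₁ a₂ : ℝ) (S b j₀ J₂ : ℕ) (c r : ℕ → ℝ) (k : ℕ) : Set ℝ :=
  {x | x ∈ VV a₁ a₂ S b j₀ J₂ c r k 2 ∧ phi b J₂ c r k x < 1 / 2}

/-- thresholds -/
noncomputable def tau (k : ℕ) : ℝ := 2 - (1 / 2) ^ k

lemma tau_ge (k : ℕ) : 1 ≤ tau k := by
  have : (1 / 2 : ℝ) ^ k ≤ 1 := pow_le_one₀ (by norm_num) (by norm_num)
  unfold tau; linarith

lemma tau_lt_two (k : ℕ) : tau k < 2 := by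
  have : (0 : ℝ) < (1 / 2 : ℝ) ^ k := by positivity
  unfold tau; linarith

lemma tau_lt_succ (k : ℕ) : tau k < tau (k + 1) := by
  have : (0 : ℝ) < (1 / 2 : ℝ) ^ k := by positivity
  unfold tau; rw [pow_succ]; linarith

section
variable {a₁ a₂ : ℝ} {S b j₀ J₂ : ℕ} {c r : ℕ → ℝ}

lemma phi_continuous (i : ℕ) : Continuous (phi b J₂ c r i) := by
  unfold phi
  apply Continuous.max
  · exact continuous_const.mul (dZ_continuous.comp (continuous_const.mul continuous_id))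
  · exact (continuous_const.mul (dZ_continuous.comp (continuous_id.sub continuous_const))).div_const _

lemma phi_per (i : ℕ) (x : ℝ) : phi b J₂ c r i (x + 1) = phi b J₂ c r i x := by
  unfold phi
  congr 2
  · have : ((b * (b ^ 3) ^ (J₂ + i) : ℕ) : ℝ) * (x + 1) =
      (b * (b ^ 3) ^ (J₂ + i) : ℕ) * x + ((b * (b ^ 3) ^ (J₂ + i) : ℕ) : ℤ) := by
      push_cast; ring
    rw [this, dZ_add_int]
  · have : x + 1 - c i = (x - c i) + (1 : ℤ) := by push_cast; ring
    rw [this, dZ_add_int]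

lemma VV_per (k : ℕ) (τ x : ℝ) :
    x + 1 ∈ VV a₁ a₂ S b j₀ J₂ c r k τ ↔ x ∈ VV a₁ a₂ S b j₀ J₂ c r k τ := by
  unfold VV
  rw [mem_ofPred_eq, mem_ofPred_eq]
  have h1 : ∀ j : ℕ, dZ (((b ^ 3) ^ j : ℕ) * (x + 1)) = dZ (((b ^ 3) ^ j : ℕ) * x) := by
    intro j
    have : (((b ^ 3) ^ j : ℕ) : ℝ) * (x + 1) = ((b ^ 3) ^ j : ℕ) * x + (((b ^ 3) ^ j : ℕ) : ℤ) := by
      push_cast; ring
    rw [this, dZ_add_int]
  have h2 : ∀ v i, phi b J₂ c r i (x + 1 - Lf a₁ a₂ v) = phi b J₂ c r i (x - Lf a₁ a₂ v) := by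
    intro v i
    have : x + 1 - Lf a₁ a₂ v = (x - Lf a₁ a₂ v) + 1 := by ring
    rw [this, phi_per]
  simp only [h1, h2]

lemma VV_open (k : ℕ) (τ : ℝ) : IsOpen (VV a₁ a₂ S b j₀ J₂ c r k τ) := by
  have : VV a₁ a₂ S b j₀ J₂ c r k τ =
      (⋂ j ∈ Finset.Ico j₀ (J₂ + k), {x | τ < (b : ℝ) * dZ (((b ^ 3) ^ j : ℕ) * x)}) ∩
      ⋂ i ∈ Finset.range k, ⋂ v ∈ sq S, {x | τ < phi b J₂ c r i (x - Lf a₁ a₂ v)} := by
    ext x
    simp only [VV, mem_ofPred_eq, mem_inter_iff, mem_iInter, Finset.mem_Ico, Finset.mem_range,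
      mem_sq, and_imp]
  rw [this]
  apply IsOpen.inter
  · apply isOpen_biInter_finset
    intro j _
    exact isOpen_lt continuous_const
      (continuous_const.mul (dZ_continuous.comp (continuous_const.mul continuous_id)))
  · apply isOpen_biInter_finset
    intro i _
    apply isOpen_biInter_finset
    intro v _
    exact isOpen_lt continuous_const ((phi_continuous i).comp (continuous_id.sub continuous_const))

lemma le_of_mem_closure {f : ℝ → ℝ} (hf : Continuous f) {A : Set ℝ} {t x : ℝ}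
    (hA : ∀ y ∈ A, t ≤ f y) (hx : x ∈ closure A) : t ≤ f x := by
  have : closure A ⊆ {y | t ≤ f y} := closure_minimal hA (isClosed_le continuous_const hf)
  exact this hx

lemma ge_of_mem_closure {f : ℝ → ℝ} (hf : Continuous f) {A : Set ℝ} {t x : ℝ}
    (hA : ∀ y ∈ A, f y ≤ t) (hx : x ∈ closure A) : f x ≤ t := by
  have : closure A ⊆ {y | f y ≤ t} := closure_minimal hA (isClosed_le hf continuous_const)
  exact this hx

lemma cont_dig (j : ℕ) : Continuous (fun x : ℝ => (b : ℝ) * dZ (((b ^ 3) ^ j : ℕ) * x)) :=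
  continuous_const.mul (dZ_continuous.comp (continuous_const.mul continuous_id))

lemma cont_phi_sub (i : ℕ) (y : ℝ) : Continuous (fun x : ℝ => phi b J₂ c r i (x - y)) :=
  (phi_continuous i).comp (continuous_id.sub continuous_const)

/-- weak inequalities on the closure. -/
lemma VV_closure_le (k : ℕ) (τ x : ℝ) (hx : x ∈ closure (VV a₁ a₂ S b j₀ J₂ c r k τ)) :
    (∀ j, j₀ ≤ j → j < J₂ + k → τ ≤ (b : ℝ) * dZ (((b ^ 3) ^ j : ℕ) * x)) ∧
    ∀ i < k, ∀ v, InSq S v → τ ≤ phi b J₂ c r i (x - Lf a₁ a₂ v) := by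
  constructor
  · intro j h1 h2
    exact le_of_mem_closure (cont_dig j) (fun y hy => (hy.1 j h1 h2).le) hx
  · intro i hi v hv
    exact le_of_mem_closure (cont_phi_sub i _) (fun y hy => (hy.2 i hi v hv).le) hx

lemma VV_closure (k : ℕ) {τ τ' : ℝ} (h : τ < τ') :
    closure (VV a₁ a₂ S b j₀ J₂ c r k τ') ⊆ VV a₁ a₂ S b j₀ J₂ c r k τ := by
  intro x hx
  obtain ⟨h1, h2⟩ := VV_closure_le k τ' x hx
  exact ⟨fun j h3 h4 => h.trans_le (h1 j h3 h4), fun i hi v hv => h.trans_le (h2 i hi v hv)⟩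

lemma VV_anti {k k' : ℕ} (h : k ≤ k') (τ : ℝ) :
    VV a₁ a₂ S b j₀ J₂ c r k' τ ⊆ VV a₁ a₂ S b j₀ J₂ c r k τ := by
  intro x hx
  exact ⟨fun j h3 h4 => hx.1 j h3 (by omega), fun i hi v hv => hx.2 i (by omega) v hv⟩

lemma ZZ_open (k : ℕ) : IsOpen (ZZ a₁ a₂ S b j₀ J₂ c r k) :=
  (VV_open k 2).inter (isOpen_lt (phi_continuous k) continuous_const)

lemma ZZ_closure_sub (k : ℕ) : closure (ZZ a₁ a₂ S b j₀ J₂ c r k) ⊆
    VV a₁ a₂ S b j₀ J₂ c r k (tau k) := by
  have : closure (ZZ a₁ a₂ S b j₀ J₂ c r k) ⊆ closure (VV a₁ a₂ S b j₀ J₂ c r k 2) :=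
    closure_mono (fun x hx => hx.1)
  exact this.trans (VV_closure k (tau_lt_two k))

lemma ZZ_closure_phi (k : ℕ) {x : ℝ} (hx : x ∈ closure (ZZ a₁ a₂ S b j₀ J₂ c r k)) :
    phi b J₂ c r k x ≤ 1 / 2 :=
  ge_of_mem_closure (phi_continuous k) (fun y hy => hy.2.le) hx

lemma ZZ_per (k : ℕ) (x : ℝ) :
    x + 1 ∈ ZZ a₁ a₂ S b j₀ J₂ c r k ↔ x ∈ ZZ a₁ a₂ S b j₀ J₂ c r k := by
  unfold ZZ
  rw [mem_ofPred_eq, mem_ofPred_eq, VV_per, phi_per]

lemma phi_level_countable (hb : 1 ≤ b) (hr : ∀ i, r i ≠ 0) (i : ℕ) (y t : ℝ) :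
    {x | phi b J₂ c r i (x - y) = t}.Countable := by
  have : {x | phi b J₂ c r i (x - y) = t} ⊆
      {x | dZ (((b * (b ^ 3) ^ (J₂ + i) : ℕ) : ℝ) * x + (-((b * (b ^ 3) ^ (J₂ + i) : ℕ) * y))) =
        t / b} ∪ {x | dZ (1 * x + (- y - c i)) = t * r i / 2} := by
    intro x hx
    rw [mem_ofPred_eq] at hx
    unfold phi at hx
    have hb' : (b : ℝ) ≠ 0 := by
      have : (0 : ℝ) < b := by exact_mod_cast hb
      exact this.ne'
    rcases max_choice ((b : ℝ) * dZ ((b * (b ^ 3) ^ (J₂ + i) : ℕ) * (x - y)))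
      (2 * dZ (x - y - c i) / r i) with h | h
    · left
      rw [h] at hx
      rw [mem_ofPred_eq, ← hx]
      have : ((b * (b ^ 3) ^ (J₂ + i) : ℕ) : ℝ) * x + (-((b * (b ^ 3) ^ (J₂ + i) : ℕ) * y)) =
        (b * (b ^ 3) ^ (J₂ + i) : ℕ) * (x - y) := by ring
      rw [this]
      field_simp
    · right
      rw [h] at hx
      rw [mem_ofPred_eq, ← hx]
      have h2 := hr i
      have : 1 * x + (- y - c i) = x - y - c i := by ring
      rw [this]
      field_simp
  apply Countable.mono this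
  apply Countable.union
  · apply dZ_level_countable
    have : (0 : ℝ) < ((b * (b ^ 3) ^ (J₂ + i) : ℕ) : ℝ) := by
      have : 0 < b * (b ^ 3) ^ (J₂ + i) := by positivity
      exact_mod_cast this
    exact this.ne'
  · apply dZ_level_countable
    norm_num

lemma ZZ_frontier (hb : 1 ≤ b) (hr : ∀ i, r i ≠ 0) (k : ℕ) :
    (frontier (ZZ a₁ a₂ S b j₀ J₂ c r k)).Countable := by
  have hsub : frontier (ZZ a₁ a₂ S b j₀ J₂ c r k) ⊆
      (⋃ j : ℕ, {x | dZ ((((b ^ 3) ^ j : ℕ) : ℝ) * x + 0) = 2 / b}) ∪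
      (⋃ i : ℕ, ⋃ v : ℤ × ℤ, {x | phi b J₂ c r i (x - Lf a₁ a₂ v) = 2}) ∪
      {x | phi b J₂ c r k (x - 0) = 1 / 2} := by
    intro x hx
    rw [(ZZ_open k).frontier_eq] at hx
    obtain ⟨hx1, hx2⟩ := hx
    have hxV : x ∈ closure (VV a₁ a₂ S b j₀ J₂ c r k 2) := closure_mono (fun y hy => hy.1) hx1
    obtain ⟨h1, h2⟩ := VV_closure_le k 2 x hxV
    have h3 := ZZ_closure_phi k hx1
    by_contra hcon
    apply hx2
    simp only [mem_union, mem_iUnion, mem_ofPred_eq, not_or, not_exists] at hcon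
    obtain ⟨⟨c1, c2⟩, c3⟩ := hcon
    refine ⟨⟨?_, ?_⟩, ?_⟩
    · intro j hj1 hj2
      apply lt_of_le_of_ne (h1 j hj1 hj2)
      intro heq
      apply c1 j
      have hb' : (b : ℝ) ≠ 0 := by
        have : (0 : ℝ) < b := by exact_mod_cast hb
        exact this.ne'
      rw [add_zero, heq]
      field_simp
    · intro i hi v hv
      exact lt_of_le_of_ne (h2 i hi v hv) (fun h => c2 i v h.symm)
    · apply lt_of_le_of_ne h3
      intro h
      apply c3
      rw [sub_zero]; exact h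
  apply Countable.mono hsub
  refine Countable.union (Countable.union ?_ ?_) ?_
  · apply countable_iUnion
    intro j
    apply dZ_level_countable
    have : 0 < (b ^ 3) ^ j := by positivity
    exact_mod_cast this.ne'
  · apply countable_iUnion
    intro i
    apply countable_iUnion
    intro v
    exact phi_level_countable hb hr i _ _
  · exact phi_level_countable hb hr k _ _

lemma regularize_idem (A : Set ℝ) :
    interior (closure (interior (closure A))) = interior (closure A) := by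
  apply Subset.antisymm
  · apply interior_mono
    exact closure_minimal interior_subset isClosed_closure
  · exact interior_maximal subset_closure isOpen_interior

lemma closure_interior_closure_sub (A : Set ℝ) : closure (interior (closure A)) ⊆ closure A :=
  closure_minimal interior_subset isClosed_closure

lemma frontier_regularize_sub (A : Set ℝ) : frontier (interior (closure A)) ⊆ frontier A := by
  intro x hx
  rw [isOpen_interior.frontier_eq] at hx
  refine ⟨closure_interior_closure_sub A hx.1, fun h => hx.2 ?_⟩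
  exact interior_mono subset_closure h

/-- The seed system. -/
lemma seedSys_of (hb : 2 ≤ b) (hJ : j₀ < J₂) (hr : ∀ i, 0 < r i)
    (hr2 : ∀ i, ∀ v : ℤ × ℤ, v ≠ 0 → InSq S v → r i ≤ dZ (Lf a₁ a₂ v))
    (htend : Tendsto (fun J => volume (Vd (b ^ 3) j₀ J ∩ Icc 0 1)) atTop (𝓝 0)) :
    SeedSys a₁ a₂ S ((b ^ 3) ^ j₀) (fun k => VV a₁ a₂ S b j₀ J₂ c r k (tau k))
      (fun k => interior (closure (ZZ a₁ a₂ S b j₀ J₂ c r k))) where
  hN := by
    have : 0 < (b ^ 3) ^ j₀ := by positivity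
    omega
  Vper := fun k x => VV_per k _ x
  Zper := by
    intro k x
    -- translation by 1 is a homeomorphism preserving ZZ
    have h : (fun y : ℝ => y + 1) ⁻¹' (interior (closure (ZZ a₁ a₂ S b j₀ J₂ c r k))) =
        interior (closure (ZZ a₁ a₂ S b j₀ J₂ c r k)) := by
      have h1 := (Homeomorph.addRight (1 : ℝ)).preimage_interior (closure (ZZ a₁ a₂ S b j₀ J₂ c r k))
      have h2 := (Homeomorph.addRight (1 : ℝ)).preimage_closure (ZZ a₁ a₂ S b j₀ J₂ c r k)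
      have h3 : (Homeomorph.addRight (1 : ℝ)) ⁻¹' (ZZ a₁ a₂ S b j₀ J₂ c r k) =
          ZZ a₁ a₂ S b j₀ J₂ c r k := by
        ext y
        exact ZZ_per k y
      rw [h3] at h2
      rw [h2] at h1
      exact h1
    exact Set.ext_iff.mp h x
  Vclosure := by
    intro k
    exact (VV_closure (k + 1) (tau_lt_succ k)).trans (VV_anti (Nat.le_succ k) _)
  Vtend := by
    have hsub : ∀ k, VV a₁ a₂ S b j₀ J₂ c r k (tau k) ∩ Icc 0 1 ⊆
        Vd (b ^ 3) j₀ (J₂ + k) ∩ Icc 0 1 := by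
      intro k x hx
      refine ⟨?_, hx.2⟩
      intro j h1 h2
      have h3 := hx.1.1 j h1 h2
      have h4 : 1 / ((b ^ 3 : ℕ) : ℝ) < dZ (((b ^ 3) ^ j : ℕ) * x) := by
        have hb0 : (2 : ℝ) ≤ b := by exact_mod_cast hb
        have h5 : 1 < (b : ℝ) * dZ (((b ^ 3) ^ j : ℕ) * x) := lt_of_le_of_lt (tau_ge k) h3
        rw [div_lt_iff₀ (by positivity)]
        have h6 : (b : ℝ) * dZ (((b ^ 3) ^ j : ℕ) * x) ≤
            dZ (((b ^ 3) ^ j : ℕ) * x) * ((b ^ 3 : ℕ) : ℝ) := by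
          rw [mul_comm]
          apply mul_le_mul_of_nonneg_left _ (dZ_nonneg _)
          push_cast
          nlinarith [sq_nonneg ((b : ℝ) - 1)]
        linarith
      rw [lt_dZ_iff] at h4
      push_cast at h4 ⊢
      exact h4
    have h2 : Tendsto (fun k => volume (Vd (b ^ 3) j₀ (J₂ + k) ∩ Icc 0 1)) atTop (𝓝 0) := by
      have h3 : Tendsto (fun k : ℕ => J₂ + k) atTop atTop := tendsto_add_atTop_nat J₂ |>.congr
        (fun k => by ring)
      exact htend.comp h3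
    exact tendsto_of_tendsto_of_tendsto_of_le_of_le tendsto_const_nhds h2 (fun _ => bot_le)
      (fun k => measure_mono (hsub k))
  grid := by
    intro m hm
    have h1 := (VV_closure_le 0 (tau 0) _ hm).1 j₀ le_rfl (by omega)
    have hB : (((b ^ 3) ^ j₀ : ℕ) : ℝ) ≠ 0 := by
      have : 0 < (b ^ 3) ^ j₀ := by positivity
      exact_mod_cast this.ne'
    have h2 : (((b ^ 3) ^ j₀ : ℕ) : ℝ) * ((m : ℝ) / ((b ^ 3) ^ j₀ : ℕ)) = (m : ℝ) := by
      field_simp
    rw [h2, dZ_int, mul_zero] at h1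
    linarith [tau_ge 0]
  Zreg := fun k => regularize_idem _
  Zfr := by
    intro k
    have h : (frontier (ZZ a₁ a₂ S b j₀ J₂ c r k)).Countable :=
      ZZ_frontier (by omega) (fun i => (hr i).ne') k
    exact measure_mono_null (frontier_regularize_sub _) (h.measure_zero _)
  ZV := fun k => (closure_interior_closure_sub _).trans (ZZ_closure_sub k)
  far := by
    intro k z hz v hv hcon
    have h1 := ZZ_closure_phi k (closure_interior_closure_sub _ hz)
    have h2 := hcon.2 k (Nat.lt_succ_self k) v hv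
    rw [add_sub_cancel_right] at h2
    linarith [tau_ge (k + 1)]
  sep := by
    intro k z hz v hv0 hv hcon
    have h1 := ZZ_closure_phi k (closure_interior_closure_sub _ hz)
    have h2 := ZZ_closure_phi k (closure_interior_closure_sub _ hcon)
    unfold phi at h1 h2
    have h3 := (le_max_right _ _).trans h1
    have h4 := (le_max_right _ _).trans h2
    have hrk := hr k
    rw [div_le_iff₀ hrk] at h3 h4
    have h5 := dZ_sub_le (z + Lf a₁ a₂ v - c k) (z - c k)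
    have h6 : z + Lf a₁ a₂ v - c k - (z - c k) = Lf a₁ a₂ v := by ring
    rw [h6] at h5
    have h7 := hr2 k v hv0 hv
    linarith

end

end GB
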