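import Pool.Agent.Helper70.GB.LevelA

/-!
# The level theorem, part B: universality by nested intervals
-/

open Set MeasureTheory Filter Topology

namespace GB

lemma exists_int_point (σ κ t μ : ℝ) (hσ : σ ≠ 0) (h : 1 ≤ |σ| * μ) :
    ∃ x ∈ Icc t (t + μ), ∃ m : ℤ, σ * x + κ = m := by
  rcases lt_or_gt_of_ne hσ with hneg | hpos
  · rw [abs_of_neg hneg] at h
    refine ⟨(⌈σ * (t + μ) + κ⌉ - κ) / σ, ⟨?_, ?_⟩, ⌈σ * (t + μ) + κ⌉, by field_simp; ring⟩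
    · rw [le_div_iff_of_neg hneg]
      have := Int.ceil_lt_add_one (σ * (t + μ) + κ)
      nlinarith
    · rw [div_le_iff_of_neg hneg]
      have := Int.le_ceil (σ * (t + μ) + κ)
      nlinarith
  · rw [abs_of_pos hpos] at h
    refine ⟨(⌈σ * t + κ⌉ - κ) / σ, ⟨?_, ?_⟩, ⌈σ * t + κ⌉, by field_simp; ring⟩
    · rw [le_div_iff₀ hpos]
      have := Int.le_ceil (σ * t + κ)
      nlinarith
    · rw [div_le_iff₀ hpos]
      have := Int.ceil_lt_add_one (σ * t + κ)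
      nlinarith

section
variable {a₁ a₂ : ℝ} {S b j₀ J₂ K k' : ℕ} {c r : ℕ → ℝ} {s q : Fin k' → ℝ}

/-- constants -/
lemma const_facts (hK : 1 ≤ K) (hb : 16 * K * 4 ^ (K * (2 * S + 1) ^ 2 + K) < b) :
    (16 : ℝ) * K * 4 ^ K ≤ b ∧ (16 : ℝ) * K * 4 ^ (K * (2 * S + 1) ^ 2) < b ∧
      (4 : ℝ) ^ K ≤ b ∧ (4 : ℝ) ^ (K * (2 * S + 1) ^ 2) ≤ b ∧ (16 : ℝ) ≤ b ∧
      (16 : ℝ) * K * 4 ^ K < b := by
  have hK' : (1 : ℝ) ≤ K := by exact_mod_cast hK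
  have hb' : (16 : ℝ) * K * 4 ^ (K * (2 * S + 1) ^ 2 + K) < b := by exact_mod_cast hb
  have h1 : (4 : ℝ) ^ K ≤ 4 ^ (K * (2 * S + 1) ^ 2 + K) :=
    pow_le_pow_right₀ (by norm_num) (Nat.le_add_left _ _)
  have h2 : (4 : ℝ) ^ (K * (2 * S + 1) ^ 2) ≤ 4 ^ (K * (2 * S + 1) ^ 2 + K) :=
    pow_le_pow_right₀ (by norm_num) (Nat.le_add_right _ _)
  have h3 : (1 : ℝ) ≤ 4 ^ K := one_le_pow₀ (by norm_num)
  have h4 : (1 : ℝ) ≤ 4 ^ (K * (2 * S + 1) ^ 2) := one_le_pow₀ (by norm_num)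
  have h5 : (16 : ℝ) * K * 4 ^ K ≤ 16 * K * 4 ^ (K * (2 * S + 1) ^ 2 + K) := by gcongr
  have h6 : (16 : ℝ) * K * 4 ^ (K * (2 * S + 1) ^ 2) ≤ 16 * K * 4 ^ (K * (2 * S + 1) ^ 2 + K) := by
    gcongr
  refine ⟨by linarith, by linarith, ?_, ?_, ?_, by linarith⟩
  · nlinarith
  · nlinarith
  · nlinarith

lemma B_pos (hb0 : (16 : ℝ) ≤ b) (j : ℕ) : (0 : ℝ) < (((b ^ 3) ^ j : ℕ) : ℝ) := by
  have : 0 < (b ^ 3) ^ j := by
    have hb1 : 0 < b := by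
      have : (0 : ℝ) < b := by linarith
      exact_mod_cast this
    positivity
  exact_mod_cast this

/-- thinning at one scale -/
lemma thin (hK : 1 ≤ K) (hb : 16 * K * 4 ^ (K * (2 * S + 1) ^ 2 + K) < b)
    (hs : ∀ l, 1 / (K : ℝ) ≤ |s l| ∧ |s l| ≤ 1) (D : Finset (Fin k')) (hD : D.card ≤ K) (j : ℕ)
    (t : ℝ) :
    ∃ t₁, t ≤ t₁ ∧ t₁ + 1 / (((b ^ 3) ^ j : ℕ) : ℝ) / 4 ^ K ≤ t + 1 / (((b ^ 3) ^ j : ℕ) : ℝ) ∧
      ∀ x ∈ Icc t₁ (t₁ + 1 / (((b ^ 3) ^ j : ℕ) : ℝ) / 4 ^ K), ∀ l ∈ D,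
        2 < (b : ℝ) * dZ (((b ^ 3) ^ j : ℕ) * (s l * x + q l)) := by
  obtain ⟨h1, h2, h3, h4, h5, h6⟩ := const_facts hK hb
  have hK' : (1 : ℝ) ≤ K := by exact_mod_cast hK
  have hB := B_pos (b := b) h5 j
  have hspos : ∀ l, 0 < |s l| := fun l => lt_of_lt_of_le (by positivity) (hs l).1
  obtain ⟨t₁, h7, h8, h9⟩ := avoid_finset (((b ^ 3) ^ j : ℕ) : ℝ) hB s q
    (1 / (((b ^ 3) ^ j : ℕ) : ℝ)) (by positivity) D
    (fun i _ => abs_pos.mp (hspos i)) (fun i _ => by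
      have : (((b ^ 3) ^ j : ℕ) : ℝ) * |s i| * (1 / (((b ^ 3) ^ j : ℕ) : ℝ)) = |s i| := by
        field_simp
      rw [this]; exact (hs i).2) t
  have hcard : (4 : ℝ) ^ D.card ≤ 4 ^ K := pow_le_pow_right₀ (by norm_num) hD
  have hlen : 1 / (((b ^ 3) ^ j : ℕ) : ℝ) / 4 ^ K ≤ 1 / (((b ^ 3) ^ j : ℕ) : ℝ) / 4 ^ D.card := by
    apply div_le_div_of_nonneg_left (by positivity) (by positivity) hcard
  refine ⟨t₁, h7, by linarith, ?_⟩
  intro x hx l hl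
  have h10 := h9 l hl x ⟨hx.1, hx.2.trans (by linarith)⟩
  have h11 : (((b ^ 3) ^ j : ℕ) : ℝ) * |s l| * (1 / (((b ^ 3) ^ j : ℕ) : ℝ)) = |s l| := by
    field_simp
  rw [h11] at h10
  have h12 : (2 : ℝ) / b < |s l| / (8 * 4 ^ D.card) := by
    have hb0 : (0 : ℝ) < b := by linarith
    rw [div_lt_div_iff₀ hb0 (by positivity)]
    have h13 : 1 ≤ K * |s l| := by
      have := (hs l).1
      rw [div_le_iff₀ (by linarith)] at this
      linarith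
    calc 2 * (8 * (4 : ℝ) ^ D.card) ≤ 2 * (8 * 4 ^ K) := by gcongr
      _ = 16 * 4 ^ K * 1 := by ring
      _ ≤ 16 * 4 ^ K * (K * |s l|) := by gcongr
      _ = (16 * K * 4 ^ K) * |s l| := by ring
      _ < b * |s l| := by
        apply mul_lt_mul_of_pos_right h6 (hspos l)
      _ = |s l| * b := by ring
  have h14 : (2 : ℝ) / b < dZ (((b ^ 3) ^ j : ℕ) * (s l * x + q l)) := h12.trans_le h10
  rw [div_lt_iff₀ (by linarith)] at h14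
  linarith

/-- The state of the nested-interval process at stage `k` with undecided maps `D`. -/
def St (a₁ a₂ : ℝ) (S b j₀ J₂ : ℕ) (c r : ℕ → ℝ) (s q : Fin k' → ℝ) (k : ℕ)
    (D : Finset (Fin k')) (t : ℝ) : Prop :=
  ∀ x ∈ Icc t (t + 1 / (((b ^ 3) ^ (J₂ + k) : ℕ) : ℝ)), ∀ l ∈ D,
    s l * x + q l ∈ VV a₁ a₂ S b j₀ J₂ c r k 2

lemma B_succ (hb0 : (16 : ℝ) ≤ b) (j : ℕ) :
    1 / (((b ^ 3) ^ (j + 1) : ℕ) : ℝ) = 1 / (((b ^ 3) ^ j : ℕ) : ℝ) / (b : ℝ) ^ 3 := by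
  have := B_pos (b := b) hb0 j
  have hb0' : (b : ℝ) ≠ 0 := by linarith
  push_cast
  rw [pow_succ]
  field_simp

lemma start (hK : 1 ≤ K) (hb : 16 * K * 4 ^ (K * (2 * S + 1) ^ 2 + K) < b)
    (hs : ∀ l, 1 / (K : ℝ) ≤ |s l| ∧ |s l| ≤ 1) (D : Finset (Fin k')) (hD : D.card ≤ K)
    (hJ : j₀ ≤ J₂) (t : ℝ) :
    ∃ t₁, t ≤ t₁ ∧ t₁ + 1 / (((b ^ 3) ^ (J₂ + 0) : ℕ) : ℝ) ≤ t + 1 / (((b ^ 3) ^ j₀ : ℕ) : ℝ) ∧
      St a₁ a₂ S b j₀ J₂ c r s q 0 D t₁ := by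
  obtain ⟨h1, h2, h3, h4, h5, h6⟩ := const_facts hK hb
  have key : ∀ J, j₀ ≤ J → ∃ t₁, t ≤ t₁ ∧
      t₁ + 1 / (((b ^ 3) ^ J : ℕ) : ℝ) ≤ t + 1 / (((b ^ 3) ^ j₀ : ℕ) : ℝ) ∧
      ∀ x ∈ Icc t₁ (t₁ + 1 / (((b ^ 3) ^ J : ℕ) : ℝ)), ∀ l ∈ D, ∀ j, j₀ ≤ j → j < J →
        2 < (b : ℝ) * dZ (((b ^ 3) ^ j : ℕ) * (s l * x + q l)) := by
    intro J hJ
    induction J, hJ using Nat.le_induction with
    | base => exact ⟨t, le_rfl, le_rfl, fun x _ l _ j h1 h2 => absurd h2 (by omega)⟩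
    | succ J hJ ih =>
      obtain ⟨t₁, g1, g2, g3⟩ := ih
      obtain ⟨t₂, g4, g5, g6⟩ := thin (q := q) hK hb hs D hD J t₁
      have hlen : 1 / (((b ^ 3) ^ (J + 1) : ℕ) : ℝ) ≤ 1 / (((b ^ 3) ^ J : ℕ) : ℝ) / 4 ^ K := by
        rw [B_succ h5]
        have := B_pos (b := b) h5 J
        apply div_le_div_of_nonneg_left (by positivity) (by positivity)
        nlinarith [sq_nonneg (b : ℝ)]
      refine ⟨t₂, g1.trans g4, by linarith, ?_⟩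
      intro x hx l hl j hj1 hj2
      have hx' : x ∈ Icc t₂ (t₂ + 1 / (((b ^ 3) ^ J : ℕ) : ℝ) / 4 ^ K) := ⟨hx.1, by linarith [hx.2]⟩
      rcases Nat.lt_succ_iff_lt_or_eq.mp hj2 with hj | rfl
      · exact g3 x ⟨g4.trans hx.1, by linarith [hx'.2]⟩ l hl j hj1 hj
      · exact g6 x hx' l hl
  obtain ⟨t₁, g1, g2, g3⟩ := key J₂ hJ
  refine ⟨t₁, g1, by simpa using g2, ?_⟩
  intro x hx l hl
  refine ⟨fun j hj1 hj2 => g3 x (by simpa using hx) l hl j hj1 (by simpa using hj2), ?_⟩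
  intro i hi
  omega

lemma advance (hK : 1 ≤ K) (hb : 16 * K * 4 ^ (K * (2 * S + 1) ^ 2 + K) < b)
    (hs : ∀ l, 1 / (K : ℝ) ≤ |s l| ∧ |s l| ≤ 1) (D : Finset (Fin k')) (hD : D.card ≤ K)
    (k : ℕ) (t : ℝ) (h : St a₁ a₂ S b j₀ J₂ c r s q k D t) :
    ∃ t₁, t ≤ t₁ ∧ t₁ + 1 / (((b ^ 3) ^ (J₂ + (k + 1)) : ℕ) : ℝ) ≤
        t + 1 / (((b ^ 3) ^ (J₂ + k) : ℕ) : ℝ) ∧
      St a₁ a₂ S b j₀ J₂ c r s q (k + 1) D t₁ := by
  obtain ⟨h1, h2, h3, h4, h5, h6⟩ := const_facts hK hb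
  have hK' : (1 : ℝ) ≤ K := by exact_mod_cast hK
  have hb0 : (0 : ℝ) < b := by linarith
  have hspos : ∀ l, 0 < |s l| := fun l => lt_of_lt_of_le (by positivity) (hs l).1
  obtain ⟨t₂, g4, g5, g6⟩ := thin (q := q) hK hb hs D hD (J₂ + k) t
  have hB := B_pos (b := b) h5 (J₂ + k)
  set β : ℝ := (((b ^ 3) ^ (J₂ + k) : ℕ) : ℝ) with hβ
  have hN : ((b * (b ^ 3) ^ (J₂ + k) : ℕ) : ℝ) = b * β := by
    rw [hβ]; push_cast; ring
  have hcard : ((D ×ˢ sq S).card : ℕ) ≤ K * (2 * S + 1) ^ 2 := by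
    rw [Finset.card_product, card_sq]
    exact Nat.mul_le_mul_right _ hD
  obtain ⟨t₁, g7, g8, g9⟩ := avoid_finset (b * β) (by positivity)
    (fun p : Fin k' × (ℤ × ℤ) => s p.1) (fun p => q p.1 - Lf a₁ a₂ p.2)
    (1 / (b * β)) (by positivity) (D ×ˢ sq S)
    (fun i _ => abs_pos.mp (hspos i.1)) (fun i _ => by
      have : (b * β) * |s i.1| * (1 / (b * β)) = |s i.1| := by
        field_simp
      rw [this]; exact (hs i.1).2) t₂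
  have hcard' : (4 : ℝ) ^ (D ×ˢ sq S).card ≤ 4 ^ (K * (2 * S + 1) ^ 2) :=
    pow_le_pow_right₀ (by norm_num) hcard
  have hlen1 : 1 / (((b ^ 3) ^ (J₂ + (k + 1)) : ℕ) : ℝ) ≤ 1 / (b * β) / 4 ^ (D ×ˢ sq S).card := by
    have : J₂ + (k + 1) = (J₂ + k) + 1 := by ring
    rw [this, B_succ h5, ← hβ]
    rw [div_div, div_div]
    apply div_le_div_of_nonneg_left (by norm_num) (by positivity)
    calc b * β * 4 ^ (D ×ˢ sq S).card ≤ b * β * 4 ^ (K * (2 * S + 1) ^ 2) := by gcongr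
      _ ≤ b * β * b := by gcongr
      _ ≤ β * b ^ 3 := by
        have : 0 ≤ β * b ^ 2 := by positivity
        nlinarith
  have hlen2 : 1 / (b * β) ≤ 1 / β / 4 ^ K := by
    rw [div_div]
    apply div_le_div_of_nonneg_left (by norm_num) (by positivity)
    rw [mul_comm]
    gcongr
  refine ⟨t₁, g4.trans g7, by linarith, ?_⟩
  intro x hx l hl
  have hx2 : x ∈ Icc t₁ (t₁ + 1 / (b * β) / 4 ^ (D ×ˢ sq S).card) := ⟨hx.1, by linarith [hx.2]⟩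
  have hx3 : x ∈ Icc t₂ (t₂ + 1 / β / 4 ^ K) := ⟨g7.trans hx.1, by linarith [hx2.2]⟩
  have hx4 : x ∈ Icc t (t + 1 / β) := ⟨g4.trans hx3.1, by linarith [hx3.2]⟩
  obtain ⟨v1, v2⟩ := h x hx4 l hl
  refine ⟨?_, ?_⟩
  · intro j hj1 hj2
    rcases Nat.lt_succ_iff_lt_or_eq.mp (show j < (J₂ + k) + 1 by omega) with hj | rfl
    · exact v1 j hj1 hj
    · exact g6 x hx3 l hl
  · intro i hi v hv
    rcases Nat.lt_succ_iff_lt_or_eq.mp hi with hi' | rfl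
    · exact v2 i hi' v hv
    · have g10 := g9 (l, v) (Finset.mem_product.mpr ⟨hl, mem_sq.mpr hv⟩) x hx2
      have h11 : (b * β) * |s l| * (1 / (b * β)) = |s l| := by
        field_simp
      simp only at g10
      rw [h11] at g10
      have h12 : (2 : ℝ) / b < |s l| / (8 * 4 ^ (D ×ˢ sq S).card) := by
        rw [div_lt_div_iff₀ hb0 (by positivity)]
        have h13 : 1 ≤ K * |s l| := by
          have := (hs l).1
          rw [div_le_iff₀ (by linarith)] at this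
          linarith
        calc 2 * (8 * (4 : ℝ) ^ (D ×ˢ sq S).card) ≤ 2 * (8 * 4 ^ (K * (2 * S + 1) ^ 2)) := by gcongr
          _ = 16 * 4 ^ (K * (2 * S + 1) ^ 2) * 1 := by ring
          _ ≤ 16 * 4 ^ (K * (2 * S + 1) ^ 2) * (K * |s l|) := by gcongr
          _ = (16 * K * 4 ^ (K * (2 * S + 1) ^ 2)) * |s l| := by ring
          _ < b * |s l| := by
            apply mul_lt_mul_of_pos_right h2 (hspos l)
          _ = |s l| * b := by ring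
      have h14 := h12.trans_le g10
      rw [div_lt_iff₀ hb0] at h14
      unfold phi
      apply lt_of_lt_of_le _ (le_max_left _ _)
      rw [hN]
      have : s l * x + q l - Lf a₁ a₂ v = s l * x + (q l - Lf a₁ a₂ v) := by ring
      rw [this]
      linarith

lemma advance_many (hK : 1 ≤ K) (hb : 16 * K * 4 ^ (K * (2 * S + 1) ^ 2 + K) < b)
    (hs : ∀ l, 1 / (K : ℝ) ≤ |s l| ∧ |s l| ≤ 1) (D : Finset (Fin k')) (hD : D.card ≤ K)
    (k : ℕ) (t : ℝ) (h : St a₁ a₂ S b j₀ J₂ c r s q k D t) (k₂ : ℕ) (hk : k ≤ k₂) :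
    ∃ t₁, t ≤ t₁ ∧ t₁ + 1 / (((b ^ 3) ^ (J₂ + k₂) : ℕ) : ℝ) ≤
        t + 1 / (((b ^ 3) ^ (J₂ + k) : ℕ) : ℝ) ∧
      St a₁ a₂ S b j₀ J₂ c r s q k₂ D t₁ := by
  induction k₂, hk using Nat.le_induction with
  | base => exact ⟨t, le_rfl, le_rfl, h⟩
  | succ J hJ ih =>
    obtain ⟨t₁, g1, g2, g3⟩ := ih
    obtain ⟨t₂, g4, g5, g6⟩ := advance hK hb hs D hD J t₁ g3
    exact ⟨t₂, g1.trans g4, by linarith, g6⟩

lemma decide_one (hK : 1 ≤ K) (hb : 16 * K * 4 ^ (K * (2 * S + 1) ^ 2 + K) < b)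
    (hs : ∀ l, 1 / (K : ℝ) ≤ |s l| ∧ |s l| ≤ 1) (D : Finset (Fin k')) (hD : D.card ≤ K)
    (k : ℕ) (t : ℝ) (h : St a₁ a₂ S b j₀ J₂ c r s q k D t) (l₀ : Fin k') (hl₀ : l₀ ∈ D)
    (hloc : ∀ x ∈ Icc t (t + 1 / (((b ^ 3) ^ (J₂ + k) : ℕ) : ℝ)),
      2 * dZ (s l₀ * x + q l₀ - c k) / r k < 1 / 2)
    (hoth : ∀ x ∈ Icc t (t + 1 / (((b ^ 3) ^ (J₂ + k) : ℕ) : ℝ)), ∀ l ∈ D, l ≠ l₀ →
      ∀ v, InSq S v → 2 < 2 * dZ (s l * x + q l - Lf a₁ a₂ v - c k) / r k) :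
    ∃ t₁, t ≤ t₁ ∧ t₁ + 1 / (((b ^ 3) ^ (J₂ + (k + 1)) : ℕ) : ℝ) ≤
        t + 1 / (((b ^ 3) ^ (J₂ + k) : ℕ) : ℝ) ∧
      St a₁ a₂ S b j₀ J₂ c r s q (k + 1) (D.erase l₀) t₁ ∧
      ∀ x ∈ Icc t₁ (t₁ + 1 / (((b ^ 3) ^ (J₂ + (k + 1)) : ℕ) : ℝ)),
        s l₀ * x + q l₀ ∈ ZZ a₁ a₂ S b j₀ J₂ c r k := by
  obtain ⟨h1, h2, h3, h4, h5, h6⟩ := const_facts hK hb
  have hK' : (1 : ℝ) ≤ K := by exact_mod_cast hK
  have hb0 : (0 : ℝ) < b := by linarith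
  have hspos : ∀ l, 0 < |s l| := fun l => lt_of_lt_of_le (by positivity) (hs l).1
  have hD' : (D.erase l₀).card ≤ K := (Finset.card_le_card (Finset.erase_subset _ _)).trans hD
  obtain ⟨t₂, g4, g5, g6⟩ := thin (q := q) hK hb hs (D.erase l₀) hD' (J₂ + k) t
  have hB := B_pos (b := b) h5 (J₂ + k)
  have hBs : 1 / (((b ^ 3) ^ (J₂ + (k + 1)) : ℕ) : ℝ) =
      1 / (((b ^ 3) ^ (J₂ + k) : ℕ) : ℝ) / (b : ℝ) ^ 3 := by
    have : J₂ + (k + 1) = (J₂ + k) + 1 := by ring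
    rw [this, B_succ h5]
  set β : ℝ := (((b ^ 3) ^ (J₂ + k) : ℕ) : ℝ) with hβ
  have hN : ((b * (b ^ 3) ^ (J₂ + k) : ℕ) : ℝ) = b * β := by
    rw [hβ]; push_cast; ring
  have h4K : (0 : ℝ) < 4 ^ K := by positivity
  -- the integer point
  have hlenpos : 1 ≤ |b * β * s l₀| * (1 / β / 4 ^ K - 1 / β / (b : ℝ) ^ 3) := by
    rw [abs_mul, abs_of_pos (by positivity : 0 < b * β)]
    have h13 : 1 / (K : ℝ) ≤ |s l₀| := (hs l₀).1
    have e1 : b * β * |s l₀| * (1 / β / 4 ^ K - 1 / β / (b : ℝ) ^ 3) =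
        |s l₀| * (b / 4 ^ K) - |s l₀| / b ^ 2 := by
      field_simp
    rw [e1]
    have e2 : |s l₀| / (b : ℝ) ^ 2 ≤ 1 := by
      rw [div_le_one (by positivity)]
      have := (hs l₀).2
      nlinarith
    have e3 : 2 ≤ |s l₀| * (b / 4 ^ K) := by
      have e4 : 16 * (K : ℝ) ≤ b / 4 ^ K := by
        rw [le_div_iff₀ h4K]; linarith
      calc (2 : ℝ) ≤ 1 / K * (16 * K) := by field_simp; norm_num
        _ ≤ |s l₀| * (b / 4 ^ K) := by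
          apply mul_le_mul h13 e4 (by positivity) (abs_nonneg _)
    linarith
  obtain ⟨x₀, hx₀, m, hm⟩ := exists_int_point (b * β * s l₀) (b * β * q l₀) t₂
    (1 / β / 4 ^ K - 1 / β / (b : ℝ) ^ 3)
    (mul_ne_zero (by positivity) (abs_pos.mp (hspos l₀))) hlenpos
  have hsubset : ∀ x ∈ Icc x₀ (x₀ + 1 / β / (b : ℝ) ^ 3), x ∈ Icc t₂ (t₂ + 1 / β / 4 ^ K) := by
    intro x hx
    exact ⟨hx₀.1.trans hx.1, by linarith [hx.2, hx₀.2]⟩
  have hsubset2 : ∀ x ∈ Icc x₀ (x₀ + 1 / β / (b : ℝ) ^ 3), x ∈ Icc t (t + 1 / β) := by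
    intro x hx
    have := hsubset x hx
    exact ⟨g4.trans this.1, by linarith [this.2]⟩
  rw [hBs]
  refine ⟨x₀, g4.trans hx₀.1, by linarith [hx₀.2], ?_, ?_⟩
  · intro x hx l hl
    rw [hBs] at hx
    have hlD := Finset.mem_of_mem_erase hl
    have hlne := Finset.ne_of_mem_erase hl
    obtain ⟨v1, v2⟩ := h x (hsubset2 x hx) l hlD
    refine ⟨?_, ?_⟩
    · intro j hj1 hj2
      rcases Nat.lt_succ_iff_lt_or_eq.mp (show j < (J₂ + k) + 1 by omega) with hj | rfl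
      · exact v1 j hj1 hj
      · exact g6 x (hsubset x hx) l hl
    · intro i hi v hv
      rcases Nat.lt_succ_iff_lt_or_eq.mp hi with hi' | rfl
      · exact v2 i hi' v hv
      · unfold phi
        exact lt_of_lt_of_le (hoth x (hsubset2 x hx) l hlD hlne v hv) (le_max_right _ _)
  · intro x hx
    refine ⟨h x (hsubset2 x hx) l₀ hl₀, ?_⟩
    unfold phi
    apply max_lt _ (hloc x (hsubset2 x hx))
    rw [hN]
    have e5 : dZ (b * β * (s l₀ * x + q l₀)) ≤ 1 / b ^ 2 := by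
      have e6 : b * β * (s l₀ * x + q l₀) = (b * β * s l₀ * (x - x₀)) + m := by
        rw [← hm]; ring
      rw [e6, dZ_add_int]
      refine (dZ_le_abs _).trans ?_
      rw [abs_mul, abs_mul, abs_of_pos (by positivity : 0 < b * β)]
      have e7 : |x - x₀| ≤ 1 / β / (b : ℝ) ^ 3 := by
        rw [abs_of_nonneg (by linarith [hx.1])]
        linarith [hx.2]
      calc b * β * |s l₀| * |x - x₀| ≤ b * β * 1 * (1 / β / (b : ℝ) ^ 3) := by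
            gcongr
            exact (hs l₀).2
        _ = 1 / b ^ 2 := by field_simp
    have e8 : b * dZ (b * β * (s l₀ * x + q l₀)) ≤ b * (1 / b ^ 2) := by gcongr
    have e9 : b * (1 / (b : ℝ) ^ 2) = 1 / b := by field_simp
    rw [e9] at e8
    have e10 : 1 / (b : ℝ) ≤ 1 / 16 := by
      apply div_le_div_of_nonneg_left (by norm_num) (by norm_num) h5
    linarith

/-- The main nested-interval induction. -/
lemma decide_all (hK : 1 ≤ K) (hb : 16 * K * 4 ^ (K * (2 * S + 1) ^ 2 + K) < b)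
    (hs : ∀ l, 1 / (K : ℝ) ≤ |s l| ∧ |s l| ≤ 1) (ρ₀ : ℝ) (hρ₀ : 0 < ρ₀)
    (henum : ∀ (c' : ℚ) (n k₁ : ℕ), ∃ k ≥ k₁, c k = c' ∧ r k = ρ₀ / (n + 1))
    (δ : ℝ) (hδ : 0 < δ) (n : ℕ) : ∀ (D : Finset (Fin k')), D.card = n → D.card ≤ K →
    ∀ (k : ℕ) (t : ℝ), St a₁ a₂ S b j₀ J₂ c r s q k D t →
    (∀ x ∈ Icc t (t + 1 / (((b ^ 3) ^ (J₂ + k) : ℕ) : ℝ)), ∀ l ∈ D, ∀ l' ∈ D, l ≠ l' →
      ∀ v, InSq S v → δ ≤ dZ ((s l * x + q l) - (s l' * x + q l') - Lf a₁ a₂ v)) →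
    ∃ x ∈ Icc t (t + 1 / (((b ^ 3) ^ (J₂ + k) : ℕ) : ℝ)), ∀ l ∈ D, ∃ k₁,
      s l * x + q l ∈ ZZ a₁ a₂ S b j₀ J₂ c r k₁ := by
  obtain ⟨h1, h2, h3, h4, h5, h6⟩ := const_facts hK hb
  have hb0 : (0 : ℝ) < b := by linarith
  induction n with
  | zero =>
    intro D hD _ k t _ _
    rw [Finset.card_eq_zero] at hD
    subst hD
    have := B_pos (b := b) h5 (J₂ + k)
    exact ⟨t, ⟨le_rfl, by linarith [div_pos one_pos this]⟩, by simp⟩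
  | succ n ih =>
    intro D hD hDK k t hSt hsep
    have hne : D.Nonempty := by
      rw [← Finset.card_pos]; omega
    obtain ⟨l₀, hl₀⟩ := hne
    -- choose the radius
    obtain ⟨N, hN⟩ := exists_nat_gt (2 * ρ₀ / δ)
    set ρ : ℝ := ρ₀ / (N + 1) with hρ
    have hρpos : 0 < ρ := by positivity
    have hρδ : ρ ≤ δ / 2 := by
      rw [hρ, div_le_iff₀ (by positivity)]
      rw [div_lt_iff₀ hδ] at hN
      nlinarith
    -- advance until the interval is short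
    have htend : ∃ k₁ ≥ k, 1 / (((b ^ 3) ^ (J₂ + k₁) : ℕ) : ℝ) ≤ ρ / 16 := by
      obtain ⟨n₁, hn₁⟩ := exists_nat_gt (16 / ρ)
      refine ⟨max k n₁, le_max_left _ _, ?_⟩
      have hpow : (n₁ : ℝ) ≤ (((b ^ 3) ^ (J₂ + max k n₁) : ℕ) : ℝ) := by
        have hb2 : 2 ≤ b ^ 3 := by
          have : 16 ≤ b := by exact_mod_cast h5
          calc 2 ≤ 16 ^ 3 := by norm_num
            _ ≤ b ^ 3 := Nat.pow_le_pow_left this 3
        have : n₁ ≤ (b ^ 3) ^ (J₂ + max k n₁) := by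
          calc n₁ ≤ J₂ + max k n₁ := by omega
            _ ≤ 2 ^ (J₂ + max k n₁) := Nat.lt_two_pow_self.le
            _ ≤ (b ^ 3) ^ (J₂ + max k n₁) := Nat.pow_le_pow_left hb2 _
        exact_mod_cast this
      have hpos : (0 : ℝ) < n₁ := lt_trans (by positivity) hn₁
      rw [div_lt_iff₀ hρpos] at hn₁
      rw [div_le_div_iff₀ (lt_of_lt_of_le hpos hpow) (by norm_num)]
      nlinarith
    obtain ⟨k₁, hk₁, hshort⟩ := htend
    obtain ⟨t₁, g1, g2, g3⟩ := advance_many hK hb hs D hDK k t hSt k₁ hk₁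
    -- choose the centre
    obtain ⟨c', hc'1, hc'2⟩ := exists_rat_btwn
      (show s l₀ * t₁ + q l₀ - ρ / 16 < s l₀ * t₁ + q l₀ by linarith)
    obtain ⟨k₂, hk₂, hck, hrk⟩ := henum c' N k₁
    obtain ⟨t₂, g4, g5, g6⟩ := advance_many hK hb hs D hDK k₁ t₁ g3 k₂ hk₂
    have hclose : ∀ x ∈ Icc t₂ (t₂ + 1 / (((b ^ 3) ^ (J₂ + k₂) : ℕ) : ℝ)),
        |s l₀ * x + q l₀ - c'| ≤ ρ / 8 := by
      intro x hx
      have e1 : |x - t₁| ≤ ρ / 16 := by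
        rw [abs_of_nonneg (by linarith [hx.1])]
        linarith [hx.2]
      have e2 : s l₀ * x + q l₀ - c' = s l₀ * (x - t₁) + (s l₀ * t₁ + q l₀ - c') := by ring
      rw [e2]
      refine (abs_add_le _ _).trans ?_
      have e3 : |s l₀ * (x - t₁)| ≤ ρ / 16 := by
        rw [abs_mul]
        calc |s l₀| * |x - t₁| ≤ 1 * (ρ / 16) := by
              gcongr
              exact (hs l₀).2
          _ = ρ / 16 := one_mul _
      have e4 : |s l₀ * t₁ + q l₀ - c'| ≤ ρ / 16 := by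
        rw [abs_le]
        constructor <;> linarith
      linarith
    have hsub : ∀ x ∈ Icc t₂ (t₂ + 1 / (((b ^ 3) ^ (J₂ + k₂) : ℕ) : ℝ)),
        x ∈ Icc t (t + 1 / (((b ^ 3) ^ (J₂ + k) : ℕ) : ℝ)) := by
      intro x hx
      exact ⟨by linarith [hx.1], by linarith [hx.2]⟩
    obtain ⟨t₃, g7, g8, g9, g10⟩ := decide_one hK hb hs D hDK k₂ t₂ g6 l₀ hl₀
      (by
        intro x hx
        rw [hck, hrk, ← hρ, div_lt_iff₀ hρpos]
        have := (dZ_le_abs (s l₀ * x + q l₀ - c')).trans (hclose x hx)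
        linarith)
      (by
        intro x hx l hl hne v hv
        rw [hck, hrk, ← hρ, lt_div_iff₀ hρpos]
        have e5 := hsep x (hsub x hx) l hl l₀ hl₀ hne v hv
        have e6 := dZ_le_add_abs (s l * x + q l - (s l₀ * x + q l₀) - Lf a₁ a₂ v)
          (s l * x + q l - Lf a₁ a₂ v - c')
        have e7 : s l * x + q l - (s l₀ * x + q l₀) - Lf a₁ a₂ v -
          (s l * x + q l - Lf a₁ a₂ v - c') = -(s l₀ * x + q l₀ - c') := by ring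
        rw [e7, abs_neg] at e6
        have := hclose x hx
        linarith)
    obtain ⟨x, hx, hxD⟩ := ih (D.erase l₀) (by rw [Finset.card_erase_of_mem hl₀]; omega)
      ((Finset.card_le_card (Finset.erase_subset _ _)).trans hDK) (k₂ + 1) t₃ g9 (by
        intro x hx l hl l' hl' hne v hv
        refine hsep x (hsub x ⟨by linarith [hx.1], by linarith [hx.2]⟩) l
          (Finset.mem_of_mem_erase hl) l' (Finset.mem_of_mem_erase hl') hne v hv)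
    refine ⟨x, hsub x ⟨by linarith [hx.1], by linarith [hx.2]⟩, ?_⟩
    intro l hl
    by_cases hll : l = l₀
    · subst hll
      exact ⟨k₂, g10 x hx⟩
    · exact hxD l (Finset.mem_erase.mpr ⟨hll, hl⟩)

end

end GB
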