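import Pool.Agent.Helper75.GB.Main
import Pool.Agent.Helper88.GB.A11
import Pool.Agent.Helper59.GB.Flux
import Pool.Agent.Helper42.GB.A13
import Pool.Agent.Helper49.GB.A15
import Pool.Agent.Helper91.GB.A5a
import Pool.Agent.Helper70.GB.DZ

/-!
# The obstruction in dimension one: the two bodies are not equidecomposable as geometric bodies
-/

open Set MeasureTheory Filter Topology

namespace GB

lemma cob_tri (a₁ : ℝ) (G : Set ℝ) (x : ℝ) :
    cob a₁ G x = 0 ∨ cob a₁ G x = 1 ∨ cob a₁ G x = -1 := by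
  classical
  unfold cob
  simp only [Set.indicator_apply]
  split_ifs <;> simp

section
variable {a₁ a₂ : ℝ} {thr : ℕ → Set ℝ → ℕ} {thr2 : ℝ → ℕ} {κ : ℕ → ℕ → ℕ}
    {e : ℕ → ℝ} {μ₀ : ℝ} {X : ℕ → Lev} {ε : ℕ → ℝ} {θ : ℕ → ℕ}

lemma Levels.ε_pos (h : Levels a₁ a₂ thr thr2 κ e μ₀ X ε θ) (i : ℕ) : 0 < ε i := by
  cases i with
  | zero => rw [h.ε0]; norm_num
  | succ i => rw [h.εsucc]; exact (h.good i).ε'pos

lemma Levels.ε_succ_lt (h : Levels a₁ a₂ thr thr2 κ e μ₀ X ε θ) (i : ℕ) : ε (i + 1) ≤ ε i := by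
  rw [h.εsucc]
  have h1 := (h.good i).ε'w
  have h2 := (h.good i).wε
  have h3 := (h.good i).wpos
  linarith

lemma Levels.ε_anti (h : Levels a₁ a₂ thr thr2 κ e μ₀ X ε θ) {i j : ℕ} (hij : i ≤ j) :
    ε j ≤ ε i := antitone_nat_of_succ_le h.ε_succ_lt hij

/-- Levels above `i` vanish away from `(0, ε (i+1)) + ℤ`. -/
lemma Levels.cob_eq_zero (h : Levels a₁ a₂ thr thr2 κ e μ₀ X ε θ) {i j : ℕ} (hij : i < j) (y : ℝ)
    (hy : ∀ u : ℤ, y + u ∉ Ioo 0 (X i).ε') : cob a₁ (X j).G y = 0 := by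
  by_contra hne
  obtain ⟨u, hu⟩ := (h.good j).supp y hne
  apply hy u
  have h1 := (h.good j).wε
  have h2 := (h.good j).wpos
  have h3 := h.ε_anti (Nat.succ_le_of_lt hij)
  rw [Nat.succ_eq_add_one, h.εsucc i] at h3
  exact ⟨by linarith [hu.1], by linarith [hu.2]⟩

open Classical in
/-- The periodization of a body. -/
lemma perCount_body (h : Levels a₁ a₂ thr thr2 κ e μ₀ X ε θ) (σ : ℤ) (hσ : σ = 1 ∨ σ = -1)
    (x : ℝ) :
    (perCount (body a₁ X σ) x : ℝ) = (if ∃ u : ℤ, x + u ∈ Ioo (0:ℝ) 1 then 1 else 0) +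
      (if ∃ i, cob a₁ (X i).G x = σ then 1 else 0) := by
  have hper : ∀ (i : ℕ) (y : ℝ) (u : ℤ), cob a₁ (X i).G (y + u) = cob a₁ (X i).G y :=
    fun i y u => cob_int (h.good i).Gper y u
  by_cases hx : ∃ u : ℤ, x + u ∈ Ioo (0:ℝ) 1
  · obtain ⟨u₀, hu₀⟩ := hx
    have huniq : ∀ u : ℤ, x + u ∈ Ioo (0:ℝ) 1 ↔ u = u₀ := by
      intro u
      constructor
      · intro hu
        have h1 : ((u - u₀ : ℤ) : ℝ) < 1 := by push_cast; linarith [hu.2, hu₀.1]
        have h2 : (-1 : ℝ) < ((u - u₀ : ℤ) : ℝ) := by push_cast; linarith [hu.1, hu₀.2]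
        have h3 : u - u₀ < 1 := by exact_mod_cast h1
        have h4 : -1 < u - u₀ := by exact_mod_cast h2
        omega
      · rintro rfl; exact hu₀
    have hex : (∃ u : ℤ, x + u ∈ Ioo (0:ℝ) 1) := ⟨u₀, hu₀⟩
    rw [if_pos hex]
    by_cases hc : ∃ i, cob a₁ (X i).G x = σ
    · rw [if_pos hc]
      obtain ⟨i, hi⟩ := hc
      have hset : {u : ℤ | x + u ∈ body a₁ X σ} = {u₀, u₀ + 2} := by
        ext u
        simp only [mem_ofPred_eq, body, mem_union, mem_image, mem_insert_iff, mem_singleton_iff]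
        constructor
        · rintro (hu | ⟨y, hy, hyu⟩)
          · left; exact (huniq u).mp hu
          · right
            have : x + ((u - 2 : ℤ) : ℝ) ∈ Ioo (0:ℝ) 1 := by
              have e1 : x + ((u - 2 : ℤ) : ℝ) = y := by push_cast; linarith
              rw [e1]; exact hy.1
            have := (huniq _).mp this
            omega
        · rintro (rfl | rfl)
          · left; exact hu₀
          · right
            refine ⟨x + u₀, ⟨hu₀, i, ?_⟩, by push_cast; ring⟩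
            rw [hper]; exact hi
      rw [perCount, hset, Set.ncard_pair (by omega)]
      norm_num
    · rw [if_neg hc]
      have hset : {u : ℤ | x + u ∈ body a₁ X σ} = {u₀} := by
        ext u
        simp only [mem_ofPred_eq, body, mem_union, mem_image, mem_singleton_iff]
        constructor
        · rintro (hu | ⟨y, hy, hyu⟩)
          · exact (huniq u).mp hu
          · exfalso
            obtain ⟨i, hi⟩ := hy.2
            apply hc
            refine ⟨i, ?_⟩
            have e1 : y = x + ((u - 2 : ℤ) : ℝ) := by push_cast; linarith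
            rw [e1, hper] at hi
            exact hi
        · rintro rfl
          left; exact hu₀
      rw [perCount, hset, Set.ncard_singleton]
      norm_num
  · rw [if_neg hx]
    have hc : ¬ ∃ i, cob a₁ (X i).G x = σ := by
      rintro ⟨i, hi⟩
      have hne : cob a₁ (X i).G x ≠ 0 := by
        rw [hi]; rcases hσ with rfl | rfl <;> norm_num
      obtain ⟨u, hu⟩ := (h.good i).supp x hne
      apply hx
      have h1 := (h.good i).wε
      have h2 := (h.good i).wpos
      have h3 := h.ε_anti (Nat.zero_le i)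
      rw [h.ε0] at h3
      exact ⟨u, by linarith [hu.1], by linarith [hu.2]⟩
    rw [if_neg hc]
    have hset : {u : ℤ | x + u ∈ body a₁ X σ} = ∅ := by
      ext u
      simp only [mem_ofPred_eq, body, mem_union, mem_image, mem_empty_iff_false, iff_false]
      rintro (hu | ⟨y, hy, hyu⟩)
      · exact hx ⟨u, hu⟩
      · apply hx
        refine ⟨u - 2, ?_⟩
        have e1 : x + ((u - 2 : ℤ) : ℝ) = y := by push_cast; linarith
        rw [e1]; exact hy.1
    rw [perCount, hset, Set.ncard_empty]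
    norm_num

/-- The difference of the periodizations. -/
lemma perCount_diff (h : Levels a₁ a₂ thr thr2 κ e μ₀ X ε θ) (i : ℕ) (y : ℝ)
    (hy : ∀ j, i < j → cob a₁ (X j).G y = 0) :
    (perCount (body a₁ X 1) y : ℝ) - perCount (body a₁ X (-1)) y =
      ∑ j ∈ Finset.range (i + 1), (cob a₁ (X j).G y : ℝ) := by
  classical
  rw [perCount_body h 1 (Or.inl rfl), perCount_body h (-1) (Or.inr rfl)]
  by_cases hall : ∀ j, cob a₁ (X j).G y = 0
  · have h1 : ¬ ∃ j, cob a₁ (X j).G y = 1 := by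
      rintro ⟨j, hj⟩; rw [hall j] at hj; norm_num at hj
    have h2 : ¬ ∃ j, cob a₁ (X j).G y = -1 := by
      rintro ⟨j, hj⟩; rw [hall j] at hj; norm_num at hj
    rw [if_neg h1, if_neg h2, Finset.sum_eq_zero (fun j _ => by rw [hall j]; norm_num)]
    ring
  · push Not at hall
    obtain ⟨j₀, hj₀⟩ := hall
    have hj₀i : j₀ < i + 1 := by
      by_contra hcon
      exact hj₀ (hy j₀ (by omega))
    have hsum : ∑ j ∈ Finset.range (i + 1), (cob a₁ (X j).G y : ℝ) = cob a₁ (X j₀).G y := by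
      rw [Finset.sum_eq_single_of_mem j₀ (Finset.mem_range.mpr hj₀i)]
      intro j _ hj
      by_contra hne
      apply hj
      exact h.unique y j j₀ (fun h0 => hne (by rw [h0]; norm_num)) hj₀
    rw [hsum]
    rcases cob_tri a₁ (X j₀).G y with h0 | h1 | h1
    · exact absurd h0 hj₀
    · have h2 : ∃ j, cob a₁ (X j).G y = 1 := ⟨j₀, h1⟩
      have h3 : ¬ ∃ j, cob a₁ (X j).G y = -1 := by
        rintro ⟨j, hj⟩
        have := h.unique y j j₀ (by rw [hj]; norm_num) hj₀
        subst this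
        rw [h1] at hj; norm_num at hj
      rw [if_pos h2, if_neg h3, h1]
      push_cast; ring
    · have h2 : ∃ j, cob a₁ (X j).G y = -1 := ⟨j₀, h1⟩
      have h3 : ¬ ∃ j, cob a₁ (X j).G y = 1 := by
        rintro ⟨j, hj⟩
        have := h.unique y j j₀ (by rw [hj]; norm_num) hj₀
        subst this
        rw [h1] at hj; norm_num at hj
      rw [if_pos h2, if_neg h3, h1]
      push_cast; ring

end

/-- Threshold function used in dimension one. -/
noncomputable def thrOne (a₁ μ₀ : ℝ) (j : ℕ) (G : Set ℝ) : ℕ := by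
  classical
  exact if h : ∃ N₀ : ℕ, ∀ N : ℕ, N₀ ≤ N → ∀ x : ℝ,
      (∑ l ∈ Finset.range N, G.indicator (fun _ => (1 : ℝ)) (x + l * a₁)) ≤
        ((volume (G ∩ Icc 0 1)).toReal + μ₀ / 2 ^ j) * N then h.choose else 0

lemma thrOne_spec {a₁ μ₀ : ℝ} (ha : Irrational a₁) (hμ : 0 < μ₀) (j : ℕ) (G : Set ℝ) (hG : Per G)
    (hfr : volume (frontier G) = 0) (N : ℕ) (hN : thrOne a₁ μ₀ j G ≤ N) (x : ℝ) :
    (∑ l ∈ Finset.range N, G.indicator (fun _ => (1 : ℝ)) (x + l * a₁)) ≤
        ((volume (G ∩ Icc 0 1)).toReal + μ₀ / 2 ^ j) * N := by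
  have h := per_avg a₁ ha G hG hfr (μ₀ / 2 ^ j) (by positivity)
  unfold thrOne at hN
  rw [dif_pos h] at hN
  exact h.choose_spec N hN x

/-- The one-dimensional obstruction. -/
theorem not_equidecGeom_one {a₁ a₂ : ℝ} (hα : QIndep a₁ a₂) {thr2 : ℝ → ℕ} {κ : ℕ → ℕ → ℕ}
    {e : ℕ → ℝ} {X : ℕ → Lev} {ε : ℕ → ℝ} {θ : ℕ → ℕ}
    (he1 : ∀ n, e n ≤ 1 / (8 * 4 ^ n)) (hκ : ∀ i P, 2 * (2 * P + 1) ^ (i + 1) * (P + 1) ≤ κ i P)
    (h : Levels a₁ a₂ (thrOne a₁ (1 / 16)) thr2 κ e (1 / 16) X ε θ) :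
    ¬ EquidecGeom (body a₁ X 1) (body a₁ X (-1)) := by
  intro hEq
  have ha := hα.irrational.1
  obtain ⟨hg1, hg2⟩ := body_geom h
  obtain ⟨m, D, σ, b, hσ, hD, hflux⟩ := flux_identity _ _ hg1 hg2 hEq
  obtain ⟨M, hM, hmain⟩ := main_level a₁ a₂ hα thr2 κ e he1 hκ (1 / 16) m b
  have hM0 : (0 : ℝ) < M := by exact_mod_cast hM
  obtain ⟨P₀, hP₀⟩ := config_sum a₁ m (fun j x => (perCount (D j) x : ℝ))
    (fun j => (volume (D j)).toReal)
    (fun j ε hε => perCount_avg a₁ ha (D j) (hD j).1 (hD j).2 ε hε) σ b hσ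
    (fun x => (perCount (body a₁ X 1) x : ℝ) - perCount (body a₁ X (-1)) x) hflux
    (1 / M) (by positivity)
  -- choose the level
  set i := max (max m M) (max P₀ 1) with hi
  have him : m ≤ i := (le_max_left _ _).trans (le_max_left _ _)
  have hiM : M ≤ i := (le_max_right _ _).trans (le_max_left _ _)
  have hiP : P₀ ≤ i := (le_max_left _ _).trans (le_max_right _ _)
  have hgood := h.good i
  obtain ⟨U, hUo, ⟨x₀, hx₀⟩, hU⟩ := hmain i him (ε i) (θ i) (X i) hgood
  set P := (X i).P with hP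
  set R := P / M with hR
  have hPi : i ≤ P := by
    have := hgood.Pθ
    calc i = i * 1 := (mul_one _).symm
      _ ≤ i * (θ i + 1) := Nat.mul_le_mul_left _ (by omega)
      _ ≤ P := this
  have hae := hP₀ P (hiP.trans hPi) R
  -- a point of `U` in the full measure set
  obtain ⟨x, hxU, hx⟩ : ∃ x ∈ U, |cfgSum a₁ b P R
      (fun x => (perCount (body a₁ X 1) x : ℝ) - perCount (body a₁ X (-1)) x) x| ≤
        1 / M * P * (2 * R + 1) ^ m := by
    by_contra hcon
    push Not at hcon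
    have hpos : 0 < volume U := hUo.measure_pos volume ⟨x₀, hx₀⟩
    have hzero : volume U = 0 := by
      rw [ae_iff] at hae
      apply measure_mono_null _ hae
      intro y hy
      rw [mem_ofPred_eq, not_le]
      exact hcon y hy
    exact hpos.ne' hzero
  -- configuration points
  have hpts : ∀ τ ∈ ({1, -1} : Finset ℤ), ∀ n ∈ Fintype.piFinset
      (fun _ : Fin m => Finset.Icc (-R : ℤ) R), ∀ k ∈ Finset.Icc (-R : ℤ) R,
      (∑ l ∈ Finset.range P,
          cob a₁ (X i).G ((τ : ℝ) * (x + l * a₁) + (∑ j, (n j : ℝ) * b j + k * a₁))) = -1 ∧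
        ∀ l < P, ∀ u : ℤ,
          (τ : ℝ) * (x + l * a₁) + (∑ j, (n j : ℝ) * b j + k * a₁) + u ∉ Ioo 0 (X i).ε' := by
    intro τ hτ n hn k hk
    apply hU x hxU τ hτ n _ k
    · rw [Finset.mem_Icc] at hk
      exact abs_le.mpr hk
    · intro j
      have := Fintype.mem_piFinset.mp hn j
      rw [Finset.mem_Icc] at this
      exact abs_le.mpr this
  have hsplit : cfgSum a₁ b P R
      (fun x => (perCount (body a₁ X 1) x : ℝ) - perCount (body a₁ X (-1)) x) x =
      ∑ j ∈ Finset.range (i + 1), cfgSum a₁ b P R (fun y => (cob a₁ (X j).G y : ℝ)) x := by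
    unfold cfgSum
    symm
    rw [Finset.sum_comm]
    apply Finset.sum_congr rfl
    intro τ hτ
    rw [Finset.sum_comm]
    apply Finset.sum_congr rfl
    intro n hn
    rw [Finset.sum_comm]
    apply Finset.sum_congr rfl
    intro k hk
    rw [Finset.sum_comm]
    apply Finset.sum_congr rfl
    intro l hl
    symm
    apply perCount_diff h i
    intro j hj
    exact h.cob_eq_zero hj _ ((hpts τ hτ n hn k hk).2 l (Finset.mem_range.mp hl))
  -- main level
  have hcardIcc : ((Finset.Icc (-R : ℤ) R).card : ℝ) = 2 * R + 1 := by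
    rw [Int.card_Icc]
    have : ((R : ℤ) + 1 - -(R : ℤ)).toNat = 2 * R + 1 := by omega
    rw [this]; push_cast; ring
  have hmainsum : cfgSum a₁ b P R (fun y => (cob a₁ (X i).G y : ℝ)) x =
      -2 * (2 * R + 1) ^ (m + 1) := by
    unfold cfgSum
    have h1 : ∀ τ ∈ ({1, -1} : Finset ℤ), ∑ n ∈ Fintype.piFinset
        (fun _ : Fin m => Finset.Icc (-R : ℤ) R), ∑ k ∈ Finset.Icc (-R : ℤ) R,
        ∑ l ∈ Finset.range P, (cob a₁ (X i).G ((τ : ℝ) * (x + l * a₁) +
          (∑ j, (n j : ℝ) * b j + k * a₁)) : ℝ) = -(2 * R + 1) ^ (m + 1) := by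
      intro τ hτ
      have h2 : ∀ n ∈ Fintype.piFinset (fun _ : Fin m => Finset.Icc (-R : ℤ) R),
          ∑ k ∈ Finset.Icc (-R : ℤ) R, ∑ l ∈ Finset.range P,
            (cob a₁ (X i).G ((τ : ℝ) * (x + l * a₁) +
              (∑ j, (n j : ℝ) * b j + k * a₁)) : ℝ) = -(2 * R + 1) := by
        intro n hn
        have h3 : ∀ k ∈ Finset.Icc (-R : ℤ) R, ∑ l ∈ Finset.range P,
            (cob a₁ (X i).G ((τ : ℝ) * (x + l * a₁) +
              (∑ j, (n j : ℝ) * b j + k * a₁)) : ℝ) = -1 := by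
          intro k hk
          have := (hpts τ hτ n hn k hk).1
          exact_mod_cast this
        rw [Finset.sum_congr rfl h3, Finset.sum_const, nsmul_eq_mul, hcardIcc]
        ring
      rw [Finset.sum_congr rfl h2, Finset.sum_const, nsmul_eq_mul, Fintype.card_piFinset]
      simp only [Finset.prod_const, Finset.card_univ, Fintype.card_fin]
      push_cast
      rw [hcardIcc]
      ring
    rw [Finset.sum_congr rfl h1, Finset.sum_const, nsmul_eq_mul]
    have : ((({1, -1} : Finset ℤ).card : ℕ) : ℝ) = 2 := by norm_num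
    rw [this]
    ring
  -- lower levels
  have hRθ : θ i + 1 ≤ R := by
    rw [hR, Nat.le_div_iff_mul_le hM]
    calc (θ i + 1) * M ≤ (θ i + 1) * i := Nat.mul_le_mul_left _ hiM
      _ = i * (θ i + 1) := mul_comm _ _
      _ ≤ P := hgood.Pθ
  have hlow : ∀ j ∈ Finset.range i,
      cfgSum a₁ b P R (fun y => (cob a₁ (X j).G y : ℝ)) x ≤
        2 * (2 * R + 1) ^ (m + 1) * (1 / 8 * (1 / 2) ^ j) := by
    intro j hj
    rw [Finset.mem_range] at hj
    have hgj := h.good j
    have h1 := cfgSum_cob_le a₁ m b P R (X j).G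
      ((volume ((X j).G ∩ Icc 0 1)).toReal + 1 / 16 / 2 ^ j) (by
        intro y
        have h2 := thrOne_spec ha (by norm_num : (0:ℝ) < 1 / 16) j (X j).G hgj.Gper hgj.Gfr
          (2 * R + 1) ((h.hθ i j hj).trans (by omega)) y
        push_cast at h2
        exact h2) x
    refine (le_abs_self _).trans (h1.trans ?_)
    apply mul_le_mul_of_nonneg_left _ (by positivity)
    have h3 : (volume ((X j).G ∩ Icc 0 1)).toReal ≤ 1 / 16 / 2 ^ j := by
      apply ENNReal.toReal_le_of_le_ofReal (by positivity) hgj.Gvol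
    have h4 : (1 / 8 : ℝ) * (1 / 2) ^ j = 1 / 16 / 2 ^ j + 1 / 16 / 2 ^ j := by
      rw [one_div_pow]; ring
    rw [h4]; linarith
  have hgeom : ∑ j ∈ Finset.range i, (1 / 8 : ℝ) * (1 / 2) ^ j ≤ 1 / 4 := by
    rw [← Finset.mul_sum, geom_sum_eq (by norm_num)]
    have h11 : (0 : ℝ) < (1 / 2) ^ i := by positivity
    have h12 : (((1 / 2 : ℝ)) ^ i - 1) / (1 / 2 - 1) = 2 * (1 - (1 / 2) ^ i) := by ring
    rw [h12]
    linarith
  have hlowsum : ∑ j ∈ Finset.range i, cfgSum a₁ b P R (fun y => (cob a₁ (X j).G y : ℝ)) x ≤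
      2 * (2 * R + 1) ^ (m + 1) * (1 / 4) := by
    refine (Finset.sum_le_sum hlow).trans ?_
    rw [← Finset.mul_sum]
    gcongr
  rw [hsplit, Finset.sum_range_succ, hmainsum] at hx
  have hlower := (abs_le.mp hx).1
  -- arithmetic
  have hPR : (P : ℝ) ≤ M * (R + 1) := by
    have : P < M * (R + 1) := by
      rw [hR]
      exact Nat.lt_mul_div_succ P hM
    exact_mod_cast this.le
  have h5 : (1 : ℝ) / M * P ≤ R + 1 := by
    rw [div_mul_eq_mul_div, one_mul, div_le_iff₀ hM0]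
    linarith
  have hpow : (0 : ℝ) < (2 * R + 1) ^ m := by positivity
  have h6 : (1 : ℝ) / M * P * (2 * R + 1) ^ m ≤ (R + 1) * (2 * R + 1) ^ m := by gcongr
  have h7 : ((2 : ℝ) * R + 1) ^ (m + 1) = (2 * R + 1) * (2 * R + 1) ^ m := by
    rw [pow_succ]; ring
  rw [h7] at hlower hlowsum
  have h8 : (3 / 2 : ℝ) * ((2 * R + 1) * (2 * R + 1) ^ m) ≤ (R + 1) * (2 * R + 1) ^ m := by
    linarith
  have h9 : (3 / 2 : ℝ) * (2 * R + 1) ≤ R + 1 := by
    have : (3 / 2 : ℝ) * (2 * R + 1) * (2 * R + 1) ^ m ≤ (R + 1) * (2 * R + 1) ^ m := by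
      linarith
    exact le_of_mul_le_mul_right this hpow
  have h10 : (0 : ℝ) ≤ R := Nat.cast_nonneg _
  linarith

end GB
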