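import Pool.Agent.Helper70.GB.Defs

/-!
# MP_02f2ca_gt : structures used in the construction
-/

open Set MeasureTheory Filter Topology

namespace GB

/-- Digit sets: the base-`b` digits at places `j₀+1, …, J` avoid the extreme zones. -/
def Vd (b j₀ J : ℕ) : Set ℝ :=
  {x | ∀ j, j₀ ≤ j → j < J → ∀ u : ℤ, 1 / (b : ℝ) < |(b : ℝ) ^ j * x - u|}

/-- A system of seeds: decreasing neighbourhoods `V k` of a null set and seed sets `Z k ⊆ V k`. -/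
structure SeedSys (a₁ a₂ : ℝ) (S N : ℕ) (V Z : ℕ → Set ℝ) : Prop where
  hN : 1 ≤ N
  Vper : ∀ k, Per (V k)
  Zper : ∀ k, Per (Z k)
  Vclosure : ∀ k, closure (V (k + 1)) ⊆ V k
  Vtend : Tendsto (fun k => volume (V k ∩ Icc 0 1)) atTop (𝓝 0)
  grid : ∀ m : ℤ, (m : ℝ) / N ∉ closure (V 0)
  Zreg : ∀ k, interior (closure (Z k)) = Z k
  Zfr : ∀ k, volume (frontier (Z k)) = 0
  ZV : ∀ k, closure (Z k) ⊆ V k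
  far : ∀ k, ∀ z ∈ closure (Z k), ∀ v, InSq S v → z + Lf a₁ a₂ v ∉ V (k + 1)
  sep : ∀ k, ∀ z ∈ closure (Z k), ∀ v, v ≠ 0 → InSq S v → z + Lf a₁ a₂ v ∉ closure (Z k)

/-- Universality of the union of the seed sets for families of at most `K` affine maps with
slopes between `1/K` and `1`. -/
def Universal (a₁ a₂ : ℝ) (K : ℕ) (ℓ : ℝ) (Z : ℕ → Set ℝ) : Prop :=
  ∀ k' : ℕ, k' ≤ K → ∀ s q : Fin k' → ℝ, (∀ l, 1 / (K : ℝ) ≤ |s l| ∧ |s l| ≤ 1) →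
    (∀ l l', l ≠ l' → s l = s l' → ∀ (v : ℤ × ℤ) (u : ℤ), q l - q l' ≠ Lf a₁ a₂ v + u) →
    ∀ c : ℝ, ∃ t ∈ Ioo c (c + ℓ), ∀ l, ∃ k, s l * t + q l ∈ Z k

/-- Pattern sets: all translates `z + L(v)` of seeds `z` such that the relation `Rel` holds between
the index of the cell of `z` (cells of length `1/N`) and the lattice vector `v`. -/
def Pat (a₁ a₂ : ℝ) (N H : ℕ) (Z : ℕ → Set ℝ) (Rel : ℤ → ℤ × ℤ → Prop) : Set ℝ :=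
  {x | ∃ k, ∃ z ∈ Z k, ∃ v : ℤ × ℤ, InSq H v ∧ Rel ⌊(N : ℝ) * z⌋ v ∧ x = z + Lf a₁ a₂ v}

/-- The coboundary `1_G - 1_G(· + a₁)`. -/
noncomputable def cob (a₁ : ℝ) (G : Set ℝ) (x : ℝ) : ℤ :=
  G.indicator (fun _ => (1 : ℤ)) x - G.indicator (fun _ => (1 : ℤ)) (x + a₁)

/-- Data of one level. -/
structure Lev where
  w : ℝ
  g : ℕ
  T : ℕ
  P : ℕ
  K : ℕ
  S : ℕ
  H : ℕ
  ε' : ℝ
  Z : Set ℝ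
  G : Set ℝ

/-- The properties of one level. -/
structure Good (a₁ a₂ : ℝ) (thr2 : ℝ → ℕ) (κ : ℕ → ℕ → ℕ) (e : ℕ → ℝ) (μ₀ : ℝ)
    (i : ℕ) (ε : ℝ) (θ : ℕ) (X : Lev) : Prop where
  wpos : 0 < X.w
  wε : 8 * X.w < ε
  ε'pos : 0 < X.ε'
  ε'w : X.ε' ≤ 2 * X.w
  ε'e : X.ε' ≤ e X.K
  ε'S : ∀ v : ℤ × ℤ, v ≠ 0 → InSq (2 * X.S) v → ∀ u : ℤ, X.ε' ≤ |Lf a₁ a₂ v - u|
  hg : 1 ≤ X.g
  gap : 1 ≤ 32 * (X.g : ℝ) * X.w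
  P8 : 8 ∣ X.P
  PT : 4 * X.T + 4 ≤ X.P
  gP : X.g ≤ X.P
  Pθ : i * (θ + 1) ≤ X.P
  Pthr2 : i * thr2 X.w ≤ X.P
  Kκ : κ i X.P ≤ X.K
  KP : 2 * X.P ≤ X.K
  Zper : Per X.Z
  Gper : Per X.G
  Zopen : IsOpen X.Z
  Gfr : volume (frontier X.G) = 0
  Gvol : volume (X.G ∩ Icc 0 1) ≤ ENNReal.ofReal (μ₀ / 2 ^ i)
  posreg : interior (closure {x | cob a₁ X.G x = 1}) = {x | cob a₁ X.G x = 1}
  posfr : volume (frontier {x | cob a₁ X.G x = 1}) = 0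
  negreg : interior (closure {x | cob a₁ X.G x = -1}) = {x | cob a₁ X.G x = -1}
  negfr : volume (frontier {x | cob a₁ X.G x = -1}) = 0
  supp : ∀ x, cob a₁ X.G x ≠ 0 → ∃ u : ℤ, x + u ∈ Ioo (4 * X.w) (8 * X.w)
  hGs : ∀ x ∈ X.G, ∃ z ∈ X.Z, ∃ u : ℤ × ℤ,
    |u.1| ≤ X.H ∧ |u.1 - 1| ≤ X.H ∧ |u.2| ≤ X.H ∧ x = z + Lf a₁ a₂ u
  hsep : ∀ z ∈ X.Z, ∀ u : ℤ × ℤ, u ≠ 0 → InSq (2 * X.S) u → z + Lf a₁ a₂ u ∉ X.Z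
  hsize : X.H + 2 ^ (i + 1) * (2 * X.H + 1) ^ 2 + 1 ≤ X.S
  pattern : ∀ z ∈ X.Z, ∀ r : ℤ, |r| ≤ X.K → ∃ a₀ : ℤ, 0 ≤ a₀ ∧ a₀ < X.T ∧
    ∀ a : ℤ, |a| ≤ X.K → cob a₁ X.G (z + Lf a₁ a₂ (a, r)) = if a = a₀ then -1 else 0
  small : ∀ z ∈ X.Z, ∀ r : ℤ, |r| ≤ X.K → ∀ a : ℤ, 0 ≤ a → a ≤ X.g →
    (∃ u : ℤ, z + Lf a₁ a₂ (a, r) + u ∈ Ioo (11 / 2 * X.w) (13 / 2 * X.w)) →
    cob a₁ X.G (z + Lf a₁ a₂ (a, r)) = -1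
  univ : ∀ k' : ℕ, k' ≤ X.K → ∀ s q : Fin k' → ℝ, (∀ l, 1 / (X.K : ℝ) ≤ |s l| ∧ |s l| ≤ 1) →
    (∀ l l', l ≠ l' → s l = s l' → ∀ (v : ℤ × ℤ) (u : ℤ), q l - q l' ≠ Lf a₁ a₂ v + u) →
    ∀ c : ℝ, ∃ t ∈ Ioo c (c + e X.K), ∀ l, s l * t + q l ∈ X.Z

/-- A sequence of good levels. -/
structure Levels (a₁ a₂ : ℝ) (thr : ℕ → Set ℝ → ℕ) (thr2 : ℝ → ℕ) (κ : ℕ → ℕ → ℕ) (e : ℕ → ℝ)
    (μ₀ : ℝ) (X : ℕ → Lev) (ε : ℕ → ℝ) (θ : ℕ → ℕ) : Prop where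
  ε0 : ε 0 = 1 / 2
  εsucc : ∀ i, ε (i + 1) = (X i).ε'
  good : ∀ i, Good a₁ a₂ thr2 κ e μ₀ i (ε i) (θ i) (X i)
  hθ : ∀ i j, j < i → thr j (X j).G ≤ θ i

/-- The source set `P⁺` (sign `1`) and the sink set `P⁻` (sign `-1`), inside `(0,1)`. -/
def PM (a₁ : ℝ) (X : ℕ → Lev) (σ : ℤ) : Set ℝ :=
  {x | x ∈ Ioo (0 : ℝ) 1 ∧ ∃ i, cob a₁ (X i).G x = σ}

/-- The two bodies (`σ = 1`, `σ = -1`). -/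
def body (a₁ : ℝ) (X : ℕ → Lev) (σ : ℤ) : Set ℝ :=
  Ioo (0 : ℝ) 1 ∪ (fun x => x + 2) '' PM a₁ X σ

/-- The configuration sum used in the one-dimensional obstruction. -/
noncomputable def cfgSum (α : ℝ) {m : ℕ} (b : Fin m → ℝ) (P R : ℕ) (F : ℝ → ℝ) (x : ℝ) : ℝ :=
  ∑ τ ∈ ({1, -1} : Finset ℤ), ∑ n ∈ Fintype.piFinset (fun _ : Fin m => Finset.Icc (-R : ℤ) R),
    ∑ k ∈ Finset.Icc (-R : ℤ) R, ∑ l ∈ Finset.range P,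
      F ((τ : ℝ) * (x + l * α) + (∑ j, (n j : ℝ) * b j + k * α))

end GB
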